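import Mathlib

set_option autoImplicit false

/-!
# Integral representation of powers and weak majorization
-/

open MeasureTheory Set Filter Topology

namespace Pool.Agent.Lib_helper16.SD

lemma int_min (t : ℝ) (ht0 : 0 < t) (ht1 : t < 1) (x : ℝ) (hx : 0 ≤ x) :
    IntegrableOn (fun c : ℝ => min x c * c ^ (t - 2)) (Ioi 0) ∧
      ∫ c in Ioi (0 : ℝ), min x c * c ^ (t - 2) = x ^ t / (t * (1 - t)) := by
  rcases hx.eq_or_lt with rfl | hx
  · have e : ∀ c ∈ Ioi (0 : ℝ), min 0 c * c ^ (t - 2) = 0 := by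
      intro c hc
      rw [min_eq_left (le_of_lt hc), zero_mul]
    constructor
    · exact (integrableOn_zero).congr_fun (fun c hc => (e c hc).symm) measurableSet_Ioi
    · rw [setIntegral_congr_fun measurableSet_Ioi e, Real.zero_rpow ht0.ne']
      simp
  · have e1 : ∀ c ∈ Ioc (0 : ℝ) x, min x c * c ^ (t - 2) = c ^ (t - 1) := by
      intro c hc
      rw [min_eq_right hc.2]
      have : c ^ (t - 1) = c ^ (1 + (t - 2)) := by ring_nf
      rw [this, Real.rpow_add hc.1, Real.rpow_one]
    have e2 : ∀ c ∈ Ioi x, min x c * c ^ (t - 2) = x * c ^ (t - 2) := by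
      intro c hc
      rw [min_eq_left (le_of_lt hc)]
    have i1 : IntegrableOn (fun c : ℝ => min x c * c ^ (t - 2)) (Ioc 0 x) := by
      have h := (intervalIntegral.intervalIntegrable_rpow' (a := 0) (b := x) (r := t - 1) (by linarith))
      rw [intervalIntegrable_iff_integrableOn_Ioc_of_le hx.le] at h
      exact h.congr_fun (fun c hc => (e1 c hc).symm) measurableSet_Ioc
    have i2 : IntegrableOn (fun c : ℝ => min x c * c ^ (t - 2)) (Ioi x) := by
      have h : IntegrableOn (fun c : ℝ => x * c ^ (t - 2)) (Ioi x) :=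
        (integrableOn_Ioi_rpow_of_lt (a := t - 2) (by linarith) hx).const_mul x
      exact h.congr_fun (fun c hc => (e2 c hc).symm) measurableSet_Ioi
    have hU : Ioi (0 : ℝ) = Ioc 0 x ∪ Ioi x := (Ioc_union_Ioi_eq_Ioi hx.le).symm
    have hd : Disjoint (Ioc 0 x) (Ioi x) := by
      rw [Set.disjoint_left]
      intro c hc hc2
      exact absurd hc2 (not_lt.mpr hc.2)
    constructor
    · rw [hU]; exact i1.union i2
    · rw [hU, setIntegral_union hd measurableSet_Ioi i1 i2,
        setIntegral_congr_fun measurableSet_Ioc e1, setIntegral_congr_fun measurableSet_Ioi e2,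
        ← intervalIntegral.integral_of_le hx.le, integral_rpow (Or.inl (by linarith)),
        integral_const_mul, integral_Ioi_rpow_of_lt (by linarith) hx]
      have h1 : (0 : ℝ) ^ (t - 1 + 1) = 0 := by
        rw [Real.zero_rpow]; linarith
      have h2 : x * (-x ^ (t - 2 + 1) / (t - 2 + 1)) = x ^ t / (1 - t) := by
        have h3 : x ^ t = x * x ^ (t - 2 + 1) := by
          have : x ^ t = x ^ (1 + (t - 2 + 1)) := by ring_nf
          rw [this, Real.rpow_add hx, Real.rpow_one]
        rw [h3]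
        have h4 : t - 2 + 1 = -(1 - t) := by ring
        have h5 : (1 - t) ≠ 0 := by linarith
        rw [h4]
        field_simp
      rw [h1, h2]
      have h6 : t - 1 + 1 = t := by ring
      rw [h6]
      have h5 : (1 - t) ≠ 0 := by linarith
      have h7 := ht0.ne'
      field_simp
      ring

lemma int_list (t : ℝ) (ht0 : 0 < t) (ht1 : t < 1) (L : List (ℝ × ℝ)) (hL : ∀ p ∈ L, 0 ≤ p.1 ∧ 0 ≤ p.2) :
    IntegrableOn (fun c : ℝ => (L.map (fun p => min p.1 c * p.2)).sum * c ^ (t - 2)) (Ioi 0) ∧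
      ∫ c in Ioi (0 : ℝ), (L.map (fun p => min p.1 c * p.2)).sum * c ^ (t - 2) =
        (L.map (fun p => p.1 ^ t * p.2)).sum / (t * (1 - t)) := by
  induction L with
  | nil => simp
  | cons p L ih =>
    obtain ⟨h1, h2⟩ := ih (fun q hq => hL q (List.mem_cons_of_mem _ hq))
    obtain ⟨h3, h4⟩ := int_min t ht0 ht1 p.1 (hL p List.mem_cons_self).1
    have e : ∀ c : ℝ, ((p :: L).map (fun p => min p.1 c * p.2)).sum * c ^ (t - 2) =
      p.2 * (min p.1 c * c ^ (t - 2)) + (L.map (fun p => min p.1 c * p.2)).sum * c ^ (t - 2) := by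
      intro c
      rw [List.map_cons, List.sum_cons]
      ring
    have i1 := h3.const_mul p.2
    constructor
    · simp_rw [e]
      exact i1.add h1
    · simp_rw [e]
      rw [integral_add i1 h1, integral_const_mul, h4, h2, List.map_cons, List.sum_cons]
      ring

lemma int_fin {ι : Type*} (s : Finset ι) (κ b : ι → ℝ) (hκ : ∀ i ∈ s, 0 ≤ κ i)
    (t : ℝ) (ht0 : 0 < t) (ht1 : t < 1) :
    IntegrableOn (fun c : ℝ => (∑ i ∈ s, min (κ i) c * b i) * c ^ (t - 2)) (Ioi 0) ∧
      ∫ c in Ioi (0 : ℝ), (∑ i ∈ s, min (κ i) c * b i) * c ^ (t - 2) =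
        (∑ i ∈ s, κ i ^ t * b i) / (t * (1 - t)) := by
  classical
  induction s using Finset.induction_on with
  | empty => simp
  | insert j s hj ih =>
    obtain ⟨h1, h2⟩ := ih (fun q hq => hκ q (Finset.mem_insert_of_mem hq))
    obtain ⟨h3, h4⟩ := int_min t ht0 ht1 (κ j) (hκ j (Finset.mem_insert_self _ _))
    have e : ∀ c : ℝ, (∑ i ∈ insert j s, min (κ i) c * b i) * c ^ (t - 2) =
      b j * (min (κ j) c * c ^ (t - 2)) + (∑ i ∈ s, min (κ i) c * b i) * c ^ (t - 2) := by
      intro c
      rw [Finset.sum_insert hj]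
      ring
    have i1 := h3.const_mul (b j)
    constructor
    · simp_rw [e]
      exact i1.add h1
    · simp_rw [e]
      rw [integral_add i1 h1, integral_const_mul, h4, h2, Finset.sum_insert hj]
      ring

/-- Weak majorization for powers. -/
lemma major {ι : Type*} (s : Finset ι) (κ b : ι → ℝ) (hκ : ∀ i ∈ s, 0 ≤ κ i)
    (t : ℝ) (ht0 : 0 < t) (ht1 : t < 1) (L : List (ℝ × ℝ)) (hL : ∀ p ∈ L, 0 ≤ p.1 ∧ 0 ≤ p.2)
    (h : ∀ c : ℝ, 0 ≤ c → ∑ i ∈ s, min (κ i) c * b i ≤ (L.map (fun p => min p.1 c * p.2)).sum) :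
    ∑ i ∈ s, κ i ^ t * b i ≤ (L.map (fun p => p.1 ^ t * p.2)).sum := by
  obtain ⟨h1, h2⟩ := int_fin s κ b hκ t ht0 ht1
  obtain ⟨h3, h4⟩ := int_list t ht0 ht1 L hL
  have h5 := setIntegral_mono_on h1 h3 measurableSet_Ioi (fun c hc =>
    mul_le_mul_of_nonneg_right (h c (le_of_lt hc)) (Real.rpow_nonneg (le_of_lt hc) _))
  rw [h2, h4] at h5
  have h6 : 0 < t * (1 - t) := mul_pos ht0 (by linarith)
  exact (div_le_div_iff_of_pos_right h6).mp h5

lemma exp_int (t : ℝ) (ht0 : 0 < t) (ht1 : t < 1) :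
    IntegrableOn (fun c : ℝ => (1 - Real.exp (-c)) * c ^ (t - 2)) (Ioi 0) ∧
      ∫ c in Ioi (0 : ℝ), (1 - Real.exp (-c)) * c ^ (t - 2) = Real.Gamma (1 + t) / (t * (1 - t)) := by
  have hint : IntegrableOn (fun c : ℝ => (1 - Real.exp (-c)) * c ^ (t - 2)) (Ioi 0) := by
    have h1 := (int_min t ht0 ht1 1 zero_le_one).1
    refine Integrable.mono' h1 ?_ ?_
    · apply ContinuousOn.aestronglyMeasurable _ measurableSet_Ioi
      apply ContinuousOn.mul
      · fun_prop
      · intro c hc
        exact (Real.continuousAt_rpow_const c (t - 2) (Or.inl (ne_of_gt hc))).continuousWithinAt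
    · rw [ae_restrict_iff' measurableSet_Ioi]
      refine Eventually.of_forall (fun c hc => ?_)
      have hc0 : 0 < c := hc
      have h2 : 0 ≤ 1 - Real.exp (-c) := by
        have : Real.exp (-c) ≤ 1 := Real.exp_le_one_iff.mpr (by linarith)
        linarith
      rw [Real.norm_of_nonneg (mul_nonneg h2 (Real.rpow_nonneg hc0.le _))]
      apply mul_le_mul_of_nonneg_right _ (Real.rpow_nonneg hc0.le _)
      apply le_min
      · have := Real.exp_pos (-c); linarith
      · have := Real.add_one_le_exp (-c); linarith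
  refine ⟨hint, ?_⟩
  have ht1' : t - 1 ≠ 0 := by linarith
  have h1t : (0 : ℝ) < 1 - t := by linarith
  have key := integral_Ioi_mul_deriv_eq_deriv_mul (a := 0) (a' := 0) (b' := 0)
    (u := fun c : ℝ => 1 - Real.exp (-c)) (v := fun c : ℝ => c ^ (t - 1) / (t - 1))
    (u' := fun c : ℝ => Real.exp (-c)) (v' := fun c : ℝ => c ^ (t - 2))
    (by
      intro c _
      have h := ((hasDerivAt_id c).neg.exp).const_sub 1
      simp only [mul_neg, mul_one, neg_neg] at h
      exact h)
    (by
      intro c hc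
      have h := (Real.hasDerivAt_rpow_const (x := c) (p := t - 1) (Or.inl (ne_of_gt hc))).div_const (t - 1)
      have e : (t - 1) * c ^ (t - 1 - 1) / (t - 1) = c ^ (t - 2) := by
        rw [mul_div_cancel_left₀ _ ht1']
        ring_nf
      rw [e] at h
      exact h)
    (by exact hint)
    (by
      have h : IntegrableOn (fun x => Real.exp (-x) * x ^ (t - 1) / (t - 1)) (Ioi 0) :=
        (Real.GammaIntegral_convergent ht0).div_const (t - 1)
      refine h.congr_fun (fun c _ => ?_) measurableSet_Ioi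
      simp only [Pi.mul_apply]
      ring)
    (by
      -- limit at 0
      have hb : ∀ᶠ c in 𝓝[>] (0 : ℝ), ‖((fun c : ℝ => 1 - Real.exp (-c)) * fun c : ℝ => c ^ (t - 1) / (t - 1)) c‖ ≤
          c ^ t / (1 - t) := by
        filter_upwards [self_mem_nhdsWithin] with c hc
        have hc0 : 0 < c := hc
        simp only [Pi.mul_apply]
        have h2 : 0 ≤ 1 - Real.exp (-c) := by
          have : Real.exp (-c) ≤ 1 := Real.exp_le_one_iff.mpr (by linarith)
          linarith
        have h3 : 1 - Real.exp (-c) ≤ c := by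
          have := Real.add_one_le_exp (-c); linarith
        have e : (1 - Real.exp (-c)) * (c ^ (t - 1) / (t - 1)) = -((1 - Real.exp (-c)) * c ^ (t - 1) / (1 - t)) := by
          have : (t - 1) = -(1 - t) := by ring
          rw [this, div_neg, mul_neg, mul_div_assoc]
        rw [e, norm_neg, Real.norm_of_nonneg (div_nonneg (mul_nonneg h2 (Real.rpow_nonneg hc0.le _)) h1t.le)]
        apply div_le_div_of_nonneg_right _ h1t.le
        have : c ^ t = c * c ^ (t - 1) := by
          have : c ^ t = c ^ (1 + (t - 1)) := by ring_nf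
          rw [this, Real.rpow_add hc0, Real.rpow_one]
        rw [this]
        exact mul_le_mul_of_nonneg_right h3 (Real.rpow_nonneg hc0.le _)
      have hl : Tendsto (fun c : ℝ => c ^ t / (1 - t)) (𝓝[>] 0) (𝓝 0) := by
        have h1 : Tendsto (fun c : ℝ => c ^ t / (1 - t)) (𝓝 0) (𝓝 ((0 : ℝ) ^ t / (1 - t))) := by
          apply Tendsto.div_const
          exact (Real.continuousAt_rpow_const 0 t (Or.inr ht0.le)).tendsto
        rw [Real.zero_rpow ht0.ne', zero_div] at h1
        exact h1.mono_left nhdsWithin_le_nhds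
      exact squeeze_zero_norm' hb hl)
    (by
      have hb : ∀ᶠ c in atTop, ‖((fun c : ℝ => 1 - Real.exp (-c)) * fun c : ℝ => c ^ (t - 1) / (t - 1)) c‖ ≤
          c ^ (-(1 - t)) / (1 - t) := by
        filter_upwards [eventually_gt_atTop 0] with c hc0
        simp only [Pi.mul_apply]
        have h2 : 0 ≤ 1 - Real.exp (-c) := by
          have : Real.exp (-c) ≤ 1 := Real.exp_le_one_iff.mpr (by linarith)
          linarith
        have h3 : 1 - Real.exp (-c) ≤ 1 := by
          have := Real.exp_pos (-c); linarith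
        have e : (1 - Real.exp (-c)) * (c ^ (t - 1) / (t - 1)) = -((1 - Real.exp (-c)) * c ^ (t - 1) / (1 - t)) := by
          have : (t - 1) = -(1 - t) := by ring
          rw [this, div_neg, mul_neg, mul_div_assoc]
        rw [e, norm_neg, Real.norm_of_nonneg (div_nonneg (mul_nonneg h2 (Real.rpow_nonneg hc0.le _)) h1t.le)]
        apply div_le_div_of_nonneg_right _ h1t.le
        have e2 : -(1 - t) = t - 1 := by ring
        rw [e2]
        calc (1 - Real.exp (-c)) * c ^ (t - 1) ≤ 1 * c ^ (t - 1) :=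
              mul_le_mul_of_nonneg_right h3 (Real.rpow_nonneg hc0.le _)
          _ = c ^ (t - 1) := one_mul _
      have hl : Tendsto (fun c : ℝ => c ^ (-(1 - t)) / (1 - t)) atTop (𝓝 0) := by
        have := (tendsto_rpow_neg_atTop h1t).div_const (1 - t)
        rwa [zero_div] at this
      exact squeeze_zero_norm' hb hl)
  rw [key]
  have e : ∫ x in Ioi (0 : ℝ), Real.exp (-x) * (x ^ (t - 1) / (t - 1)) = Real.Gamma t / (t - 1) := by
    rw [Real.Gamma_eq_integral ht0, ← integral_div]
    apply setIntegral_congr_fun measurableSet_Ioi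
    intro x _
    simp only
    ring
  rw [e, add_comm 1 t, Real.Gamma_add_one ht0.ne']
  have : (t - 1) = -(1 - t) := by ring
  rw [this, div_neg]
  have h7 := ht0.ne'
  have h8 := h1t.ne'
  field_simp
  ring

lemma gamma_le {ι : Type*} (s : Finset ι) (κ b : ι → ℝ) (hκ : ∀ i ∈ s, 0 ≤ κ i)
    (t : ℝ) (ht0 : 0 < t) (ht1 : t < 1)
    (h : ∀ c : ℝ, 0 ≤ c → 1 - Real.exp (-c) ≤ ∑ i ∈ s, min (κ i) c * b i) :
    Real.Gamma (1 + t) ≤ ∑ i ∈ s, κ i ^ t * b i := by
  obtain ⟨h1, h2⟩ := int_fin s κ b hκ t ht0 ht1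
  obtain ⟨h3, h4⟩ := exp_int t ht0 ht1
  have h5 := setIntegral_mono_on h3 h1 measurableSet_Ioi (fun c hc =>
    mul_le_mul_of_nonneg_right (h c (le_of_lt hc)) (Real.rpow_nonneg (le_of_lt hc) _))
  rw [h2, h4] at h5
  have h6 : 0 < t * (1 - t) := mul_pos ht0 (by linarith)
  exact (div_le_div_iff_of_pos_right h6).mp h5

end Pool.Agent.Lib_helper16.SD
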