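import Pool.Agent.Lib_helper16.SD.Pluennecke

set_option autoImplicit false

/-!
# The chain of minimal ratio sets
-/

open Finset Function
open scoped Pointwise

namespace Pool.Agent.Lib_helper16.SD

variable {G : Type*} [AddCancelCommMonoid G] [DecidableEq G]

/-- Truncated size of `X + j B`. -/
noncomputable def gg (B : Finset G) (inR : G → Prop) (j : ℕ) (X : Finset G) : ℕ := by
  classical exact ((X + j • B).filter inR).card

/-- Alive predicate: inside the region and outside of `X + j B`. -/
def alv (B : Finset G) (inR : G → Prop) (X : Finset G) (j : ℕ) (x : G) : Prop :=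
  inR x ∧ x ∉ X + j • B

lemma alv_step (B : Finset G) (inR : G → Prop) (hR : ∀ x b, b ∈ B → inR (x + b) → inR x)
    (X : Finset G) (j : ℕ) (x b : G) (hb : b ∈ B) (h : alv B inR X (j + 1) (x + b)) :
    alv B inR X j x := by
  refine ⟨hR x b hb h.1, fun hx => h.2 ?_⟩
  rw [succ_nsmul, ← add_assoc]
  exact Finset.add_mem_add hx hb

lemma mem_It (B : Finset G) (inR : G → Prop) (hR : ∀ x b, b ∈ B → inR (x + b) → inR x)
    (X Y : Finset G) (hY : ∀ y ∈ Y, inR y ∧ y ∉ X) (j : ℕ) (x : G) :
    x ∈ It B (alv B inR X) j Y ↔ x ∈ Y + j • B ∧ inR x ∧ x ∉ X + j • B := by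
  induction j generalizing x with
  | zero =>
    simp only [It, zero_nsmul, add_zero]
    constructor
    · intro h; exact ⟨h, hY x h⟩
    · intro h; exact h.1
  | succ j ih =>
    simp only [It]
    rw [mem_Im]
    constructor
    · rintro ⟨⟨u, hu, b, hb, e⟩, ha⟩
      rw [ih] at hu
      refine ⟨?_, ha⟩
      rw [succ_nsmul, ← add_assoc, ← e]
      exact Finset.add_mem_add hu.1 hb
    · rintro ⟨h1, h2, h3⟩
      rw [succ_nsmul, ← add_assoc, Finset.mem_add] at h1
      obtain ⟨u, hu, b, hb, e⟩ := h1
      refine ⟨⟨u, ?_, b, hb, e⟩, h2, h3⟩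
      rw [ih]
      refine ⟨hu, hR u b hb (by rw [e]; exact h2), ?_⟩
      intro hu2
      apply h3
      rw [succ_nsmul, ← add_assoc, ← e]
      exact Finset.add_mem_add hu2 hb

lemma card_It (B : Finset G) (inR : G → Prop) (hR : ∀ x b, b ∈ B → inR (x + b) → inR x)
    (X Y : Finset G) (hY : ∀ y ∈ Y, inR y ∧ y ∉ X) (j : ℕ) :
    (It B (alv B inR X) j Y).card + gg B inR j X = gg B inR j (X ∪ Y) := by
  classical
  unfold gg
  have e : (((X ∪ Y) + j • B).filter inR) = It B (alv B inR X) j Y ∪ ((X + j • B).filter inR) := by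
    ext x
    rw [Finset.mem_union, mem_It B inR hR X Y hY, Finset.mem_filter, Finset.mem_filter,
      Finset.union_add, Finset.mem_union]
    tauto
  have hd : Disjoint (It B (alv B inR X) j Y) ((X + j • B).filter inR) := by
    rw [Finset.disjoint_left]
    intro x hx hx2
    rw [mem_It B inR hR X Y hY] at hx
    rw [Finset.mem_filter] at hx2
    exact hx.2.2 hx2.1
  have := Finset.card_union_of_disjoint hd
  rw [← e] at this
  convert this.symm using 2

lemma gg_mono (B : Finset G) (inR : G → Prop) (j : ℕ) {X Y : Finset G} (h : X ⊆ Y) :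
    gg B inR j X ≤ gg B inR j Y := by
  classical
  unfold gg
  apply Finset.card_le_card
  intro x hx
  rw [Finset.mem_filter] at hx ⊢
  exact ⟨Finset.add_subset_add_right h hx.1, hx.2⟩

lemma gg_empty (B : Finset G) (inR : G → Prop) (j : ℕ) : gg B inR j ∅ = 0 := by
  classical
  unfold gg
  simp

lemma chain (B : Finset G) (inR : G → Prop) (hR : ∀ x b, b ∈ B → inR (x + b) → inR x)
    (A : Finset G) (hA : ∀ x ∈ A, inR x) (k k' : ℕ) (hk' : 0 < k') (hk : k' ≤ k) :
    ∀ n : ℕ, ∀ X ⊆ A, (A \ X).card = n → ∃ L : List (ℝ × ℝ), (∀ p ∈ L, 0 ≤ p.1 ∧ 0 ≤ p.2) ∧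
      (L.map (fun p => p.1 ^ ((k' : ℝ) / k) * p.2)).sum ≤ (gg B inR k' A : ℝ) - gg B inR k' X ∧
      ∀ c : ℝ, 0 ≤ c → ∀ m : ℝ, (∀ Y, X ⊆ Y → Y ⊆ A →
        m ≤ (gg B inR k Y : ℝ) - gg B inR k X + c * ((A \ Y).card : ℝ)) →
        m ≤ (L.map (fun p => min p.1 c * p.2)).sum := by
  classical
  intro n
  induction n using Nat.strong_induction_on with
  | _ n ih =>
  intro X hX hn
  by_cases hXA : X = A
  · subst hXA
    refine ⟨[], by simp, by simp, ?_⟩
    intro c hc m hm
    have := hm X (subset_refl _) (subset_refl _)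
    simpa using this
  · -- choose the minimal ratio set
    set F := A.powerset.filter (fun Z => X ⊂ Z) with hF
    have hFne : F.Nonempty := ⟨A, by
      rw [hF, Finset.mem_filter]
      exact ⟨Finset.mem_powerset.mpr (subset_refl _), Finset.ssubset_iff_subset_ne.mpr ⟨hX, hXA⟩⟩⟩
    obtain ⟨Z, hZ, hZmin⟩ := Finset.exists_min_image F
      (fun Z => ((gg B inR k Z : ℝ) - gg B inR k X) / ((Z \ X).card : ℝ)) hFne
    rw [hF, Finset.mem_filter, Finset.mem_powerset] at hZ
    obtain ⟨hZA, hXZ⟩ := hZ
    set μ := ((gg B inR k Z : ℝ) - gg B inR k X) / ((Z \ X).card : ℝ) with hμ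
    have hcard : 0 < (Z \ X).card := by
      apply Finset.card_pos.mpr
      rw [Finset.sdiff_nonempty]
      exact hXZ.2
    have hcardR : (0 : ℝ) < ((Z \ X).card : ℝ) := by exact_mod_cast hcard
    have hgZ : (gg B inR k Z : ℝ) - gg B inR k X = μ * ((Z \ X).card : ℝ) := by
      rw [hμ, div_mul_cancel₀ _ hcardR.ne']
    have hμ0 : 0 ≤ μ := by
      rw [hμ]
      apply div_nonneg _ hcardR.le
      have : (gg B inR k X : ℝ) ≤ gg B inR k Z := by exact_mod_cast gg_mono B inR k hXZ.1
      linarith
    -- minimality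
    have hmin : ∀ Y, X ⊆ Y → Y ⊆ A → μ * ((Y \ X).card : ℝ) ≤ (gg B inR k Y : ℝ) - gg B inR k X := by
      intro Y h1 h2
      by_cases h3 : Y = X
      · subst h3; simp
      · have h4 : Y ∈ F := by
          rw [hF, Finset.mem_filter, Finset.mem_powerset]
          exact ⟨h2, Finset.ssubset_iff_subset_ne.mpr ⟨h1, fun e => h3 e.symm⟩⟩
        have h5 := hZmin Y h4
        have h6 : (0 : ℝ) < ((Y \ X).card : ℝ) := by
          have : 0 < (Y \ X).card := by
            apply Finset.card_pos.mpr
            rw [Finset.sdiff_nonempty]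
            intro h7
            exact h3 (subset_antisymm h7 h1)
          exact_mod_cast this
        rw [le_div_iff₀ h6] at h5
        exact h5
    -- Pluennecke step
    have hplu : μ ^ ((k' : ℝ) / k) * ((Z \ X).card : ℝ) ≤ (gg B inR k' Z : ℝ) - gg B inR k' X := by
      rcases hμ0.eq_or_lt with h0 | hpos
      · rw [← h0, Real.zero_rpow (by
          have h1 : (0 : ℝ) < k' := by exact_mod_cast hk'
          have h2 : (0 : ℝ) < k := by exact_mod_cast (lt_of_lt_of_le hk' hk)
          positivity), zero_mul]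
        have : (gg B inR k' X : ℝ) ≤ gg B inR k' Z := by exact_mod_cast gg_mono B inR k' hXZ.1
        linarith
      · have hkpos : 0 < k := lt_of_lt_of_le hk' hk
        have hkR : (0 : ℝ) < k := by exact_mod_cast hkpos
        set C := μ ^ ((1 : ℝ) / k) with hC
        have hCpos : 0 < C := Real.rpow_pos_of_pos hpos _
        have hCk : C ^ k = μ := by
          rw [hC, ← Real.rpow_natCast, ← Real.rpow_mul hpos.le]
          rw [one_div, inv_mul_cancel₀ hkR.ne', Real.rpow_one]
        have hCk' : C ^ k' = μ ^ ((k' : ℝ) / k) := by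
          rw [hC, ← Real.rpow_natCast, ← Real.rpow_mul hpos.le]
          congr 1
          field_simp
        have hY0 : ∀ Y ⊆ Z \ X, ∀ y ∈ Y, inR y ∧ y ∉ X := by
          intro Y hY y hy
          have := hY hy
          rw [Finset.mem_sdiff] at this
          exact ⟨hA y (hZA this.1), this.2⟩
        have hp := pluennecke (Z \ X) B (alv B inR X) (alv_step B inR hR X) k hkpos C hCpos (by
          intro Y hY
          rw [hCk]
          have h1 := card_It B inR hR X Y (hY0 Y hY) k
          have h2 := hmin (X ∪ Y) Finset.subset_union_left (Finset.union_subset hX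
            ((hY.trans Finset.sdiff_subset).trans hZA))
          have h3 : (X ∪ Y) \ X = Y := by
            rw [Finset.union_sdiff_left]
            apply Finset.sdiff_eq_self_of_disjoint
            rw [Finset.disjoint_left]
            intro y hy hyX
            exact (hY0 Y hY y hy).2 hyX
          rw [h3] at h2
          have h4 : ((It B (alv B inR X) k Y).card : ℝ) + gg B inR k X = gg B inR k (X ∪ Y) := by
            exact_mod_cast h1
          linarith) k' hk
        rw [hCk'] at hp
        have h1 := card_It B inR hR X (Z \ X) (hY0 _ (subset_refl _)) k'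
        rw [Finset.union_sdiff_of_subset hXZ.1] at h1
        have h4 : ((It B (alv B inR X) k' (Z \ X)).card : ℝ) + gg B inR k' X = gg B inR k' Z := by
          exact_mod_cast h1
        linarith
    -- induction
    have hlt : (A \ Z).card < n := by
      rw [← hn]
      apply Finset.card_lt_card
      refine Finset.ssubset_iff_subset_ne.mpr ⟨Finset.sdiff_subset_sdiff (subset_refl _) hXZ.1, ?_⟩
      intro e
      have h1 : (A \ Z).card + Z.card = A.card := Finset.card_sdiff_add_card_eq_card hZA
      have h2 : (A \ X).card + X.card = A.card := Finset.card_sdiff_add_card_eq_card hX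
      have h3 : X.card < Z.card := Finset.card_lt_card hXZ
      rw [e] at h1
      omega
    obtain ⟨L, hL1, hL2, hL3⟩ := ih _ hlt Z hZA rfl
    refine ⟨(μ, ((Z \ X).card : ℝ)) :: L, ?_, ?_, ?_⟩
    · intro p hp
      rw [List.mem_cons] at hp
      rcases hp with rfl | hp
      · exact ⟨hμ0, hcardR.le⟩
      · exact hL1 p hp
    · rw [List.map_cons, List.sum_cons]
      dsimp only
      linarith
    · intro c hc m hm
      rw [List.map_cons, List.sum_cons]
      dsimp only
      have hkey := hL3 c hc (m - min μ c * ((Z \ X).card : ℝ)) (by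
        intro Y hZY hYA
        have hXY : X ⊆ Y := hXZ.1.trans hZY
        rcases le_total μ c with h1 | h1
        · rw [min_eq_left h1]
          have := hm Y hXY hYA
          linarith
        · rw [min_eq_right h1]
          have h2 := hm X (subset_refl _) hX
          have h3 := hmin Y hXY hYA
          have e1 : ((A \ X).card : ℝ) + X.card = A.card := by
            exact_mod_cast Finset.card_sdiff_add_card_eq_card hX
          have e2 : ((A \ Y).card : ℝ) + Y.card = A.card := by
            exact_mod_cast Finset.card_sdiff_add_card_eq_card hYA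
          have e3 : ((Z \ X).card : ℝ) + X.card = Z.card := by
            exact_mod_cast Finset.card_sdiff_add_card_eq_card hXZ.1
          have e4 : ((Y \ X).card : ℝ) + X.card = Y.card := by
            exact_mod_cast Finset.card_sdiff_add_card_eq_card hXY
          have e5 : (Z.card : ℝ) ≤ Y.card := by exact_mod_cast Finset.card_le_card hZY
          have h4 : c * ((Y.card : ℝ) - Z.card) ≤ μ * ((Y.card : ℝ) - Z.card) :=
            mul_le_mul_of_nonneg_right h1 (by linarith)
          have h5 : ((A \ X).card : ℝ) = (A \ Y).card + ((Y.card : ℝ) - Z.card) + (Z \ X).card := by linarith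
          have h6 : ((Y \ X).card : ℝ) = ((Y.card : ℝ) - Z.card) + (Z \ X).card := by linarith
          rw [h5] at h2
          rw [h6] at h3
          have h7 : c * (((A \ Y).card : ℝ) + ((Y.card : ℝ) - Z.card) + (Z \ X).card) =
            c * ((A \ Y).card : ℝ) + c * ((Y.card : ℝ) - Z.card) + c * ((Z \ X).card : ℝ) := by ring
          rw [h7] at h2
          have h8 : μ * (((Y.card : ℝ) - Z.card) + (Z \ X).card) =
            μ * ((Y.card : ℝ) - Z.card) + μ * ((Z \ X).card : ℝ) := by ring
          rw [h8] at h3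
          linarith)
      linarith

/-- The chain lemma for the whole set. -/
lemma chain_all (B : Finset G) (inR : G → Prop) (hR : ∀ x b, b ∈ B → inR (x + b) → inR x)
    (A : Finset G) (hA : ∀ x ∈ A, inR x) (k k' : ℕ) (hk' : 0 < k') (hk : k' ≤ k) :
    ∃ L : List (ℝ × ℝ), (∀ p ∈ L, 0 ≤ p.1 ∧ 0 ≤ p.2) ∧
      (L.map (fun p => p.1 ^ ((k' : ℝ) / k) * p.2)).sum ≤ (gg B inR k' A : ℝ) ∧
      ∀ c : ℝ, 0 ≤ c → ∀ m : ℝ, (∀ Y ⊆ A,
        m ≤ (gg B inR k Y : ℝ) + c * ((A \ Y).card : ℝ)) →
        m ≤ (L.map (fun p => min p.1 c * p.2)).sum := by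
  obtain ⟨L, h1, h2, h3⟩ := chain B inR hR A hA k k' hk' hk _ ∅ (Finset.empty_subset _) rfl
  refine ⟨L, h1, ?_, ?_⟩
  · rw [gg_empty] at h2
    simpa using h2
  · intro c hc m hm
    apply h3 c hc m
    intro Y _ hY
    rw [gg_empty]
    have := hm Y hY
    simpa using this

end Pool.Agent.Lib_helper16.SD
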