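import Pool.Agent.Lib_helper16.SD.Chain
import Pool.Agent.Lib_helper16.SD.Analysis

set_option autoImplicit false

/-!
# Discrete estimates for hyperbolic down-sets and staircases
-/

open Finset Function
open scoped Pointwise

namespace Pool.Agent.Lib_helper16.SD

/-- Tail of the harmonic sum. -/
noncomputable def hh (q l : ℕ) : ℝ := ∑ j ∈ Ico l q, (1 : ℝ) / ((j : ℝ) + 1)

lemma hh_nonneg (q l : ℕ) : 0 ≤ hh q l :=
  Finset.sum_nonneg (fun j _ => by positivity)

lemma hh_succ (q l : ℕ) (h : l ≤ q) : hh (q + 1) l = hh q l + 1 / ((q : ℝ) + 1) := by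
  unfold hh
  rw [Finset.sum_Ico_succ_top h]

lemma hh_self (q : ℕ) : hh q q = 0 := by simp [hh]

lemma hh_left (q l : ℕ) (h : l < q) : hh q l = 1 / ((l : ℝ) + 1) + hh q (l + 1) := by
  unfold hh
  rw [Finset.sum_eq_sum_Ico_succ_bot h]

lemma sum_hh (q : ℕ) : ∑ l ∈ range q, hh q l = q := by
  induction q with
  | zero => simp
  | succ q ih =>
    rw [Finset.sum_range_succ, hh_succ q q (le_refl _), hh_self]
    have : ∑ l ∈ range q, hh (q + 1) l = ∑ l ∈ range q, (hh q l + 1 / ((q : ℝ) + 1)) := by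
      apply Finset.sum_congr rfl
      intro l hl
      exact hh_succ q l (le_of_lt (Finset.mem_range.mp hl))
    rw [this, Finset.sum_add_distrib, ih, Finset.sum_const, Finset.card_range, nsmul_eq_mul]
    push_cast
    field_simp
    ring

/-- The lower bound giving the Gamma function. -/
lemma exp_le_sum (q : ℕ) : ∀ c : ℝ, 0 ≤ c →
    (q : ℝ) * (1 - Real.exp (-c)) ≤ ∑ l ∈ range q, min (hh q l) c := by
  induction q with
  | zero => intro c _; simp
  | succ q ih =>
    intro c hc
    have hq : (0 : ℝ) < (q : ℝ) + 1 := by positivity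
    set δ := 1 / ((q : ℝ) + 1) with hδ
    have hδ0 : 0 < δ := by positivity
    rw [Finset.sum_range_succ, hh_succ q q (le_refl _), hh_self, zero_add]
    have e1 : ∑ l ∈ range q, min (hh (q + 1) l) c = ∑ l ∈ range q, min (hh q l + δ) c := by
      apply Finset.sum_congr rfl
      intro l hl
      rw [hh_succ q l (le_of_lt (Finset.mem_range.mp hl))]
    rw [e1]
    rcases le_total δ c with h | h
    · have e2 : ∑ l ∈ range q, min (hh q l + δ) c = ∑ l ∈ range q, min (hh q l) (c - δ) + q * δ := by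
        have : ∀ l ∈ range q, min (hh q l + δ) c = min (hh q l) (c - δ) + δ := by
          intro l _
          rw [← min_add_add_right]
          congr 1
          ring
        rw [Finset.sum_congr rfl this, Finset.sum_add_distrib, Finset.sum_const, Finset.card_range,
          nsmul_eq_mul]
      rw [e2, min_eq_left h]
      have h1 := ih (c - δ) (by linarith)
      have h2 : (q : ℝ) * δ + δ = 1 := by rw [hδ]; field_simp
      have h3 : Real.exp (-(c - δ)) = Real.exp δ * Real.exp (-c) := by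
        rw [← Real.exp_add]; congr 1; ring
      have h4 : (q : ℝ) * Real.exp δ ≤ q + 1 := by
        have h5 := Real.add_one_le_exp (-δ)
        have h6 : Real.exp δ * Real.exp (-δ) = 1 := by rw [← Real.exp_add]; simp
        have h7 : (q : ℝ) ≤ ((q : ℝ) + 1) * Real.exp (-δ) := by
          have : ((q : ℝ) + 1) * (-δ + 1) = q := by rw [hδ]; field_simp; ring
          calc (q : ℝ) = ((q : ℝ) + 1) * (-δ + 1) := this.symm
            _ ≤ _ := mul_le_mul_of_nonneg_left h5 hq.le
        calc (q : ℝ) * Real.exp δ ≤ (((q : ℝ) + 1) * Real.exp (-δ)) * Real.exp δ :=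
              mul_le_mul_of_nonneg_right h7 (Real.exp_pos _).le
          _ = ((q : ℝ) + 1) * (Real.exp δ * Real.exp (-δ)) := by ring
          _ = (q : ℝ) + 1 := by rw [h6, mul_one]
      rw [h3] at h1
      have h8 : (q : ℝ) * (Real.exp δ * Real.exp (-c)) ≤ ((q : ℝ) + 1) * Real.exp (-c) := by
        have := mul_le_mul_of_nonneg_right h4 (Real.exp_pos (-c)).le
        linarith
      push_cast
      have h9 : (q : ℝ) * (1 - Real.exp δ * Real.exp (-c)) = q - (q : ℝ) * (Real.exp δ * Real.exp (-c)) := by ring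
      rw [h9] at h1
      have h10 : ((q : ℝ) + 1) * (1 - Real.exp (-c)) = (q : ℝ) + 1 - ((q : ℝ) + 1) * Real.exp (-c) := by ring
      rw [h10]
      linarith
    · have e2 : ∑ l ∈ range q, min (hh q l + δ) c = q * c := by
        have : ∀ l ∈ range q, min (hh q l + δ) c = c := by
          intro l _
          apply min_eq_right
          have := hh_nonneg q l
          linarith
        rw [Finset.sum_congr rfl this, Finset.sum_const, Finset.card_range, nsmul_eq_mul]
      rw [e2, min_eq_right h]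
      have h1 : 1 - Real.exp (-c) ≤ c := by
        have := Real.add_one_le_exp (-c); linarith
      push_cast
      have := mul_le_mul_of_nonneg_left h1 hq.le
      linarith

/-- The constant. -/
noncomputable def CC (q : ℕ) (t : ℝ) : ℝ := (1 / (q : ℝ)) * ∑ l ∈ range q, (hh q l) ^ t

lemma gamma_le_CC (q : ℕ) (hq : 0 < q) (t : ℝ) (ht0 : 0 < t) (ht1 : t < 1) :
    Real.Gamma (1 + t) ≤ CC q t := by
  have hqR : (0 : ℝ) < q := by exact_mod_cast hq
  have h := gamma_le (range q) (fun l => hh q l) (fun _ => 1 / (q : ℝ)) (fun l _ => hh_nonneg q l) t ht0 ht1 (by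
    intro c hc
    rw [← Finset.sum_mul]
    have := exp_le_sum q c hc
    rw [mul_one_div, le_div_iff₀ hqR]
    linarith)
  unfold CC
  rw [← Finset.sum_mul] at h
  linarith

lemma hh_split (q l : ℕ) (h : l < q) :
    hh q l = (((l : ℝ) + 1) / ((q : ℝ) + 1)) * hh (q + 1) (l + 1) +
      (((q : ℝ) - l) / ((q : ℝ) + 1)) * hh (q + 1) l := by
  rw [hh_succ q (l + 1) (by omega), hh_succ q l (by omega), hh_left q l h]
  field_simp
  ring

lemma CC_succ (q : ℕ) (hq : 0 < q) (t : ℝ) (ht0 : 0 ≤ t) (ht1 : t ≤ 1) : CC (q + 1) t ≤ CC q t := by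
  have hqR : (0 : ℝ) < q := by exact_mod_cast hq
  have hq1 : (0 : ℝ) < (q : ℝ) + 1 := by positivity
  have hconc := Real.concaveOn_rpow ht0 ht1
  have h1 : ∀ l ∈ range q, (((l : ℝ) + 1) / ((q : ℝ) + 1)) * (hh (q + 1) (l + 1)) ^ t +
      (((q : ℝ) - l) / ((q : ℝ) + 1)) * (hh (q + 1) l) ^ t ≤ (hh q l) ^ t := by
    intro l hl
    have hl' := Finset.mem_range.mp hl
    have hlR : (l : ℝ) < q := by exact_mod_cast hl'
    have ha : 0 ≤ ((l : ℝ) + 1) / ((q : ℝ) + 1) := by positivity
    have hb : 0 ≤ ((q : ℝ) - l) / ((q : ℝ) + 1) := div_nonneg (by linarith) hq1.le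
    have hab : ((l : ℝ) + 1) / ((q : ℝ) + 1) + ((q : ℝ) - l) / ((q : ℝ) + 1) = 1 := by
      field_simp; ring
    have hx1 : hh (q + 1) (l + 1) ∈ Set.Ici (0 : ℝ) := hh_nonneg _ _
    have hx2 : hh (q + 1) l ∈ Set.Ici (0 : ℝ) := hh_nonneg _ _
    have := hconc.2 hx1 hx2 ha hb hab
    simp only [smul_eq_mul] at this
    rw [← hh_split q l hl'] at this
    exact this
  have h2 := Finset.sum_le_sum h1
  rw [Finset.sum_add_distrib] at h2
  set H : ℕ → ℝ := fun l => (hh (q + 1) l) ^ t with hH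
  have e1 : ∑ l ∈ range q, (((l : ℝ) + 1) / ((q : ℝ) + 1)) * H (l + 1) =
      ∑ l ∈ range (q + 1), ((l : ℝ) / ((q : ℝ) + 1)) * H l := by
    rw [Finset.sum_range_succ' (fun l => ((l : ℝ) / ((q : ℝ) + 1)) * H l)]
    simp
  have e2 : ∑ l ∈ range q, (((q : ℝ) - l) / ((q : ℝ) + 1)) * H l =
      ∑ l ∈ range (q + 1), (((q : ℝ) - l) / ((q : ℝ) + 1)) * H l := by
    rw [Finset.sum_range_succ]
    simp
  have e3 : ∑ l ∈ range (q + 1), ((l : ℝ) / ((q : ℝ) + 1)) * H l +
      ∑ l ∈ range (q + 1), (((q : ℝ) - l) / ((q : ℝ) + 1)) * H l =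
      ((q : ℝ) / ((q : ℝ) + 1)) * ∑ l ∈ range (q + 1), H l := by
    rw [← Finset.sum_add_distrib, Finset.mul_sum]
    apply Finset.sum_congr rfl
    intro l _
    field_simp
    ring
  have h3 : ((q : ℝ) / ((q : ℝ) + 1)) * ∑ l ∈ range (q + 1), H l ≤ ∑ l ∈ range q, (hh q l) ^ t := by
    rw [← e3, ← e1, ← e2]
    exact h2
  unfold CC
  push_cast
  have h4 : (1 / (q : ℝ)) * (((q : ℝ) / ((q : ℝ) + 1)) * ∑ l ∈ range (q + 1), H l) ≤
      (1 / (q : ℝ)) * ∑ l ∈ range q, (hh q l) ^ t := mul_le_mul_of_nonneg_left h3 (by positivity)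
  have e4 : (1 / (q : ℝ)) * (((q : ℝ) / ((q : ℝ) + 1)) * ∑ l ∈ range (q + 1), H l) =
      1 / ((q : ℝ) + 1) * ∑ l ∈ range (q + 1), H l := by
    field_simp
  rw [e4] at h4
  exact h4

lemma CC_anti (q q' : ℕ) (hq : 0 < q) (h : q ≤ q') (t : ℝ) (ht0 : 0 ≤ t) (ht1 : t ≤ 1) :
    CC q' t ≤ CC q t := by
  induction q' with
  | zero => omega
  | succ q' ih =>
    rcases Nat.lt_or_ge q' q with h1 | h1
    · have : q = q' + 1 := by omega
      rw [this]
    · exact (CC_succ q' (by omega) t ht0 ht1).trans (ih h1)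

/-- The fractional part sequence. -/
lemma theta_sum (y : ℝ) (hy : 0 ≤ y) (n : ℕ) :
    ∑ l ∈ range n, max 0 (min 1 (y - l)) = min y n := by
  induction n with
  | zero => simp [hy]
  | succ n ih =>
    rw [Finset.sum_range_succ, ih]
    push_cast
    rcases le_total y n with h | h
    · rw [min_eq_left h, min_eq_left (by linarith : y ≤ (n : ℝ) + 1), max_eq_left]
      · ring
      · exact (min_le_right _ _).trans (by linarith)
    · rw [min_eq_right h]
      rcases le_total y ((n : ℝ) + 1) with h2 | h2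
      · rw [min_eq_left h2, min_eq_right (by linarith : y - n ≤ 1), max_eq_right (by linarith)]
        ring
      · rw [min_eq_right h2, min_eq_left (by linarith : 1 ≤ y - n), max_eq_right (by norm_num)]

lemma theta_hh (θ : ℕ → ℝ) (q : ℕ) :
    ∑ l ∈ range q, θ l * hh q l = ∑ j ∈ range q, (∑ l ∈ range (j + 1), θ l) / ((j : ℝ) + 1) := by
  induction q with
  | zero => simp
  | succ q ih =>
    rw [Finset.sum_range_succ, Finset.sum_range_succ (fun j => (∑ l ∈ range (j + 1), θ l) / ((j : ℝ) + 1)),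
      ← ih, hh_succ q q (le_refl _), hh_self]
    have : ∑ l ∈ range q, θ l * hh (q + 1) l = ∑ l ∈ range q, (θ l * hh q l + θ l / ((q : ℝ) + 1)) := by
      apply Finset.sum_congr rfl
      intro l hl
      rw [hh_succ q l (le_of_lt (Finset.mem_range.mp hl))]
      ring
    rw [this, Finset.sum_add_distrib, Finset.sum_range_succ θ q, ← Finset.sum_div]
    ring

/-- The discrete hyperbola estimate. -/
lemma hyper (q : ℕ) (y v : ℝ) (hy : 0 ≤ y) (hyq : y ≤ q) :
    ∑ l ∈ range q, min (hh q l) v ≤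
      (q : ℝ) - ∑ j ∈ range q, min 1 (y / ((j : ℝ) + 1)) + v * y := by
  set θ : ℕ → ℝ := fun l => max 0 (min 1 (y - l)) with hθ
  have h0 : ∀ l, 0 ≤ θ l := fun l => le_max_left _ _
  have h1 : ∀ l, θ l ≤ 1 := fun l => max_le zero_le_one (min_le_left _ _)
  have e1 : ∑ j ∈ range q, min 1 (y / ((j : ℝ) + 1)) = ∑ l ∈ range q, θ l * hh q l := by
    rw [theta_hh]
    apply Finset.sum_congr rfl
    intro j _
    rw [hθ, theta_sum y hy]
    push_cast
    have : (0 : ℝ) < (j : ℝ) + 1 := by positivity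
    rcases le_total y ((j : ℝ) + 1) with h | h
    · rw [min_eq_left h, min_eq_right]
      rw [div_le_one this]; exact h
    · rw [min_eq_right h, div_self this.ne', min_eq_left]
      rw [le_div_iff₀ this]; linarith
  have e2 : ∑ l ∈ range q, θ l = y := by
    rw [hθ, theta_sum y hy, min_eq_left hyq]
  have e3 : (q : ℝ) - ∑ j ∈ range q, min 1 (y / ((j : ℝ) + 1)) + v * y =
      ∑ l ∈ range q, ((1 - θ l) * hh q l + θ l * v) := by
    rw [e1, Finset.sum_add_distrib]
    have : ∑ l ∈ range q, (1 - θ l) * hh q l = ∑ l ∈ range q, hh q l - ∑ l ∈ range q, θ l * hh q l := by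
      rw [← Finset.sum_sub_distrib]
      apply Finset.sum_congr rfl
      intro l _; ring
    rw [this, sum_hh, ← Finset.sum_mul, e2]
    ring
  rw [e3]
  apply Finset.sum_le_sum
  intro l _
  have h2 : min (hh q l) v ≤ hh q l := min_le_left _ _
  have h3 : min (hh q l) v ≤ v := min_le_right _ _
  have h4 := mul_le_mul_of_nonneg_left h2 (by linarith [h1 l] : 0 ≤ 1 - θ l)
  have h5 := mul_le_mul_of_nonneg_left h3 (h0 l)
  linarith

end Pool.Agent.Lib_helper16.SD
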