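import Pool.Agent.Lib_helper16.SD.Discrete

set_option autoImplicit false

/-!
# Staircases and hyperbolic down-sets in a box
-/

open Finset Function
open scoped Pointwise

namespace Pool.Agent.Lib_helper16.SD

/-- The box with `p` columns and `q` rows. -/
def bx (p q : ℕ) (x : ℕ × ℕ) : Prop := x.1 < p ∧ x.2 < q

instance (p q : ℕ) : DecidablePred (bx p q) := fun x => by unfold bx; infer_instance

lemma bx_down (p q : ℕ) (B : Finset (ℕ × ℕ)) (x b : ℕ × ℕ) (_ : b ∈ B) (h : bx p q (x + b)) :
    bx p q x := by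
  unfold bx at h ⊢
  simp only [Prod.fst_add, Prod.snd_add] at h
  omega

/-- Points of the box above a point of `X`. -/
def upS (p q : ℕ) (X : Finset (ℕ × ℕ)) : Finset (ℕ × ℕ) :=
  (range p ×ˢ range q).filter (fun v => ∃ x ∈ X, x.1 ≤ v.1 ∧ x.2 ≤ v.2)

/-- The other points. -/
def dnS (p q : ℕ) (X : Finset (ℕ × ℕ)) : Finset (ℕ × ℕ) :=
  (range p ×ˢ range q).filter (fun v => ¬ ∃ x ∈ X, x.1 ≤ v.1 ∧ x.2 ≤ v.2)

lemma card_up_add (p q : ℕ) (X : Finset (ℕ × ℕ)) : (upS p q X).card + (dnS p q X).card = p * q := by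
  unfold upS dnS
  rw [Finset.card_filter_add_card_filter_not, Finset.card_product, Finset.card_range, Finset.card_range]

lemma mem_upS {p q : ℕ} {X : Finset (ℕ × ℕ)} {v : ℕ × ℕ} :
    v ∈ upS p q X ↔ (v.1 < p ∧ v.2 < q) ∧ ∃ x ∈ X, x.1 ≤ v.1 ∧ x.2 ≤ v.2 := by
  unfold upS
  rw [Finset.mem_filter, Finset.mem_product, Finset.mem_range, Finset.mem_range]

lemma mem_dnS {p q : ℕ} {X : Finset (ℕ × ℕ)} {v : ℕ × ℕ} :
    v ∈ dnS p q X ↔ (v.1 < p ∧ v.2 < q) ∧ ¬ ∃ x ∈ X, x.1 ≤ v.1 ∧ x.2 ≤ v.2 := by
  unfold dnS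
  rw [Finset.mem_filter, Finset.mem_product, Finset.mem_range, Finset.mem_range]

/-- Staircase decomposition. -/
lemma up_density (E X : Finset (ℕ × ℕ)) (β : ℝ) (p q : ℕ)
    (hE : ∀ p' ≤ p, ∀ q' ≤ q, β * ((p' : ℝ) * q') ≤ ((E.filter (bx p' q')).card : ℝ)) (hβ : 0 ≤ β) :
    ∀ q' ≤ q, β * ((upS p q' X).card : ℝ) ≤ (((X + E).filter (bx p q')).card : ℝ) := by
  intro q'
  induction q' using Nat.strong_induction_on with
  | _ q' ih =>
  intro hq'
  by_cases hne : (X.filter (bx p q')).Nonempty
  · obtain ⟨x, hx, hmin⟩ := Finset.exists_min_image (X.filter (bx p q')) (fun x => x.1) hne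
    rw [Finset.mem_filter] at hx
    obtain ⟨hxX, hx1, hx2⟩ := hx
    have h1 := ih x.2 hx2 (by omega)
    -- upper bound for the up-set
    have hup : upS p q' X ⊆ (Ico x.1 p ×ˢ Ico x.2 q') ∪ upS p x.2 X := by
      intro v hv
      rw [mem_upS] at hv
      obtain ⟨⟨hv1, hv2⟩, z, hz, hz1, hz2⟩ := hv
      rw [Finset.mem_union, Finset.mem_product, Finset.mem_Ico, Finset.mem_Ico, mem_upS]
      by_cases h : v.2 < x.2
      · right; exact ⟨⟨hv1, h⟩, z, hz, hz1, hz2⟩
      · left
        have : x.1 ≤ z.1 := hmin z (by rw [Finset.mem_filter]; exact ⟨hz, by unfold bx; omega⟩)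
        omega
    have hc1 : (upS p q' X).card ≤ (p - x.1) * (q' - x.2) + (upS p x.2 X).card := by
      refine (Finset.card_le_card hup).trans ((Finset.card_union_le _ _).trans ?_)
      rw [Finset.card_product, Nat.card_Ico, Nat.card_Ico]
    -- lower bound for the sumset
    have hlow : ((E.filter (bx (p - x.1) (q' - x.2))).image (fun e => x + e)) ∪
        ((X + E).filter (bx p x.2)) ⊆ (X + E).filter (bx p q') := by
      intro v hv
      rw [Finset.mem_union, Finset.mem_image, Finset.mem_filter] at hv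
      rw [Finset.mem_filter]
      rcases hv with ⟨e, he, rfl⟩ | ⟨hv, hv2⟩
      · rw [Finset.mem_filter] at he
        refine ⟨Finset.add_mem_add hxX he.1, ?_⟩
        have := he.2
        unfold bx at this ⊢
        simp only [Prod.fst_add, Prod.snd_add]
        omega
      · refine ⟨hv, ?_⟩
        unfold bx at hv2 ⊢
        omega
    have hdisj : Disjoint ((E.filter (bx (p - x.1) (q' - x.2))).image (fun e => x + e))
        ((X + E).filter (bx p x.2)) := by
      rw [Finset.disjoint_left]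
      intro v hv hv2
      rw [Finset.mem_image] at hv
      obtain ⟨e, _, rfl⟩ := hv
      rw [Finset.mem_filter] at hv2
      have := hv2.2
      unfold bx at this
      simp only [Prod.fst_add, Prod.snd_add] at this
      omega
    have hc2 := Finset.card_le_card hlow
    rw [Finset.card_union_of_disjoint hdisj, Finset.card_image_of_injective _
      (fun a b e => add_left_cancel e)] at hc2
    have h2 := hE (p - x.1) (by omega) (q' - x.2) (by omega)
    have hc1R : ((upS p q' X).card : ℝ) ≤ ((p - x.1 : ℕ) : ℝ) * ((q' - x.2 : ℕ) : ℝ) + ((upS p x.2 X).card : ℝ) := by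
      exact_mod_cast hc1
    have hc2R : (((E.filter (bx (p - x.1) (q' - x.2))).card : ℝ)) + (((X + E).filter (bx p x.2)).card : ℝ) ≤
        (((X + E).filter (bx p q')).card : ℝ) := by
      exact_mod_cast hc2
    have h3 := mul_le_mul_of_nonneg_left hc1R hβ
    rw [mul_add] at h3
    linarith
  · have : upS p q' X = ∅ := by
      rw [Finset.eq_empty_iff_forall_notMem]
      intro v hv
      rw [mem_upS] at hv
      obtain ⟨⟨hv1, hv2⟩, z, hz, hz1, hz2⟩ := hv
      exact hne ⟨z, by rw [Finset.mem_filter]; exact ⟨hz, by unfold bx; omega⟩⟩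
    rw [this]
    simp

/-- Hyperbolic bound for the number of points of a down-set. -/
lemma dn_card (p q : ℕ) (X : Finset (ℕ × ℕ)) (a : ℝ) (ha0 : 0 ≤ a)
    (ha : ∀ v ∈ dnS p q X, ((v.1 : ℝ) + 1) * ((v.2 : ℝ) + 1) ≤ a) :
    ((dnS p q X).card : ℝ) ≤ ∑ j ∈ range q, min (p : ℝ) (a / ((j : ℝ) + 1)) := by
  have h1 : (dnS p q X).card = ∑ j ∈ range q, ((dnS p q X).filter (fun v => v.2 = j)).card := by
    apply Finset.card_eq_sum_card_fiberwise
    intro v hv
    rw [Finset.mem_coe, mem_dnS] at hv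
    rw [Finset.mem_coe, Finset.mem_range]
    exact hv.1.2
  rw [h1]
  push_cast
  apply Finset.sum_le_sum
  intro j hj
  have hj1 : (0 : ℝ) < (j : ℝ) + 1 := by positivity
  have h2 : ((dnS p q X).filter (fun v => v.2 = j)) ⊆ ((range p ∩ range ⌊a / ((j : ℝ) + 1)⌋₊).image (fun i => (i, j))) := by
    intro v hv
    rw [Finset.mem_filter] at hv
    obtain ⟨hv, rfl⟩ := hv
    rw [Finset.mem_image]
    refine ⟨v.1, ?_, rfl⟩
    rw [Finset.mem_inter, Finset.mem_range, Finset.mem_range]
    have h3 := ha v hv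
    rw [mem_dnS] at hv
    refine ⟨hv.1.1, ?_⟩
    rw [Nat.lt_iff_add_one_le, Nat.le_floor_iff (by positivity), le_div_iff₀ hj1]
    push_cast
    exact h3
  have h3 := (Finset.card_le_card h2).trans Finset.card_image_le
  have h4 : (range p ∩ range ⌊a / ((j : ℝ) + 1)⌋₊).card ≤ p :=
    (Finset.card_le_card Finset.inter_subset_left).trans (by rw [Finset.card_range])
  have h5 : (range p ∩ range ⌊a / ((j : ℝ) + 1)⌋₊).card ≤ ⌊a / ((j : ℝ) + 1)⌋₊ :=
    (Finset.card_le_card Finset.inter_subset_right).trans (by rw [Finset.card_range])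
  apply le_min
  · exact_mod_cast h3.trans h4
  · have h6 : (((dnS p q X).filter (fun v => v.2 = j)).card : ℝ) ≤ ((⌊a / ((j : ℝ) + 1)⌋₊ : ℕ) : ℝ) := by
      exact_mod_cast h3.trans h5
    exact h6.trans (Nat.floor_le (by positivity))

lemma gg_eq (B : Finset (ℕ × ℕ)) (p q j : ℕ) (X : Finset (ℕ × ℕ)) :
    gg B (bx p q) j X = ((X + j • B).filter (bx p q)).card := by
  unfold gg
  congr!

/-- The main inequality in a box. -/
theorem box_main (p q : ℕ) (hp : 0 < p) (A B : Finset (ℕ × ℕ))
    (hA : ∀ x ∈ A, bx p q x) (α β : ℝ) (hα : 0 ≤ α) (hβ : 0 ≤ β) (k k' : ℕ) (hk' : 0 < k') (hk : k' < k)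
    (hαA : ∀ p' ≤ p, ∀ q' ≤ q, α * ((p' : ℝ) * q') ≤ ((A.filter (bx p' q')).card : ℝ))
    (hβB : ∀ p' ≤ p, ∀ q' ≤ q, β * ((p' : ℝ) * q') ≤ (((k • B).filter (bx p' q')).card : ℝ)) :
    α ^ (1 - (k' : ℝ) / k) * β ^ ((k' : ℝ) / k) * ((p : ℝ) * ∑ l ∈ range q, (hh q l) ^ ((k' : ℝ) / k)) ≤
      (((A + k' • B).filter (bx p q)).card : ℝ) := by
  have hpR : (0 : ℝ) < p := by exact_mod_cast hp
  have hk'R : (0 : ℝ) < k' := by exact_mod_cast hk'
  have hkR : (0 : ℝ) < k := by exact_mod_cast (lt_trans hk' hk)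
  have hkk : (k' : ℝ) < k := by exact_mod_cast hk
  set t := (k' : ℝ) / k with ht
  have ht0 : 0 < t := div_pos hk'R hkR
  have ht1 : t < 1 := (div_lt_one hkR).mpr hkk
  rcases hα.eq_or_lt with h0 | hα
  · rw [← h0, Real.zero_rpow (by linarith), zero_mul, zero_mul]
    positivity
  rcases hβ.eq_or_lt with h0 | hβ
  · rw [← h0, Real.zero_rpow ht0.ne', mul_zero, zero_mul]
    positivity
  obtain ⟨L, hL1, hL2, hL3⟩ := chain_all B (bx p q) (bx_down p q B) A hA k k' hk' hk.le
  rw [gg_eq] at hL2
  have hmaj := major (range q) (fun l => (β / α) * hh q l) (fun _ => α * p)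
    (fun l _ => mul_nonneg (by positivity) (hh_nonneg q l)) t ht0 ht1 L hL1 (by
      intro c hc
      apply hL3 c hc
      intro Y hY
      rw [gg_eq]
      have h1 := up_density (k • B) Y β p q hβB hβ.le q (le_refl _)
      have h2 : ((upS p q Y).card : ℝ) + ((dnS p q Y).card : ℝ) = (p : ℝ) * q := by
        exact_mod_cast card_up_add p q Y
      set a := ((A \ Y).card : ℝ) / α with ha
      have ha0 : 0 ≤ a := by positivity
      have h3 := dn_card p q Y a ha0 (by
        intro v hv
        rw [ha, le_div_iff₀ hα]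
        have hv' := mem_dnS.mp hv
        have h4 := hαA (v.1 + 1) (by omega) (v.2 + 1) (by omega)
        have h5 : (A.filter (bx (v.1 + 1) (v.2 + 1))) ⊆ A \ Y := by
          intro x hx
          rw [Finset.mem_filter] at hx
          rw [Finset.mem_sdiff]
          refine ⟨hx.1, fun hxY => hv'.2 ⟨x, hxY, ?_⟩⟩
          have := hx.2
          unfold bx at this
          omega
        have h6 : ((A.filter (bx (v.1 + 1) (v.2 + 1))).card : ℝ) ≤ ((A \ Y).card : ℝ) := by
          exact_mod_cast Finset.card_le_card h5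
        push_cast at h4
        linarith)
      set y := min (a / p) (q : ℝ) with hy
      have hy0 : 0 ≤ y := le_min (by positivity) (by positivity)
      have hyq : y ≤ q := min_le_right _ _
      have h7 : ∑ j ∈ range q, min (p : ℝ) (a / ((j : ℝ) + 1)) = p * ∑ j ∈ range q, min 1 (y / ((j : ℝ) + 1)) := by
        rw [Finset.mul_sum]
        apply Finset.sum_congr rfl
        intro j hj
        have hj1 : (0 : ℝ) < (j : ℝ) + 1 := by positivity
        have hjq : (j : ℝ) + 1 ≤ q := by
          have := Finset.mem_range.mp hj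
          exact_mod_cast this
        rw [hy]
        rcases le_total (a / p) (q : ℝ) with h | h
        · rw [min_eq_left h]
          have e : a / ((j : ℝ) + 1) = p * (a / p / ((j : ℝ) + 1)) := by field_simp
          rw [e]
          nth_rewrite 1 [← mul_one (p : ℝ)]
          rw [← mul_min_of_nonneg _ _ hpR.le]
        · rw [min_eq_right h]
          have h8 : (1 : ℝ) ≤ q / ((j : ℝ) + 1) := by rw [le_div_iff₀ hj1]; linarith
          rw [min_eq_left h8, mul_one, min_eq_left]
          rw [le_div_iff₀ hj1]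
          rw [le_div_iff₀ hpR] at h
          calc (p : ℝ) * ((j : ℝ) + 1) ≤ p * q := mul_le_mul_of_nonneg_left hjq hpR.le
            _ = q * p := mul_comm _ _
            _ ≤ a := h
      have h9 := hyper q y (c * α / β) hy0 hyq
      have h10 : y * p ≤ a := by
        have : y ≤ a / p := min_le_left _ _
        rwa [le_div_iff₀ hpR] at this
      -- combine
      have h11 : β * ((p : ℝ) * q - p * ∑ j ∈ range q, min 1 (y / ((j : ℝ) + 1))) ≤
          (((Y + k • B).filter (bx p q)).card : ℝ) := by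
        refine le_trans ?_ h1
        apply mul_le_mul_of_nonneg_left _ hβ.le
        rw [h7] at h3
        linarith
      have h12 : c * ((A \ Y).card : ℝ) = c * α * a := by
        rw [ha]; field_simp
      have h13 : c * α * (y * p) ≤ c * α * a := mul_le_mul_of_nonneg_left h10 (by positivity)
      have h14 : ∀ l ∈ range q, min (β / α * hh q l) c * (α * p) = β * p * min (hh q l) (c * α / β) := by
        intro l _
        have e : c = β / α * (c * α / β) := by field_simp
        nth_rewrite 1 [e]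
        rw [← mul_min_of_nonneg _ _ (by positivity)]
        field_simp
      rw [Finset.sum_congr rfl h14, ← Finset.mul_sum]
      have h15 := mul_le_mul_of_nonneg_left h9 (by positivity : 0 ≤ β * p)
      have e16 : β * p * ((q : ℝ) - ∑ j ∈ range q, min 1 (y / ((j : ℝ) + 1)) + c * α / β * y) =
        β * ((p : ℝ) * q - p * ∑ j ∈ range q, min 1 (y / ((j : ℝ) + 1))) + c * α * (y * p) := by
        field_simp
      rw [e16] at h15
      linarith)
  refine le_trans (le_of_eq ?_) (hmaj.trans hL2)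
  have h17 : ∀ l ∈ range q, (β / α * hh q l) ^ t * (α * p) = α ^ (1 - t) * β ^ t * (p * (hh q l) ^ t) := by
    intro l _
    rw [Real.mul_rpow (by positivity) (hh_nonneg q l), Real.div_rpow hβ.le hα.le]
    have : α ^ (1 - t) = α / α ^ t := by rw [Real.rpow_sub hα, Real.rpow_one]
    rw [this]
    field_simp
  rw [Finset.sum_congr rfl h17, ← Finset.mul_sum, ← Finset.mul_sum]

end Pool.Agent.Lib_helper16.SD
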