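import Pool.Agent.Lib_helper16.SD.Geom

set_option autoImplicit false

/-!
# The exact inequality for sets which are dense in all down-sets
-/

open Finset Function
open scoped Pointwise FinsetFamily

namespace Pool.Agent.Lib_helper16.SD

/-- The exact inequality in a box when `A` is dense in every down-set. -/
theorem box_kvarda (p q : ℕ) (A B : Finset (ℕ × ℕ))
    (hA : ∀ x ∈ A, bx p q x) (α β : ℝ) (hα : 0 ≤ α) (hβ : 0 ≤ β) (k k' : ℕ) (hk' : 0 < k') (hk : k' < k)
    (hαA : ∀ X ⊆ A, α * ((dnS p q X).card : ℝ) ≤ ((A \ X).card : ℝ))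
    (hβB : ∀ p' ≤ p, ∀ q' ≤ q, β * ((p' : ℝ) * q') ≤ (((k • B).filter (bx p' q')).card : ℝ)) :
    α ^ (1 - (k' : ℝ) / k) * β ^ ((k' : ℝ) / k) * ((p : ℝ) * q) ≤
      (((A + k' • B).filter (bx p q)).card : ℝ) := by
  have hk'R : (0 : ℝ) < k' := by exact_mod_cast hk'
  have hkR : (0 : ℝ) < k := by exact_mod_cast (lt_trans hk' hk)
  have hkk : (k' : ℝ) < k := by exact_mod_cast hk
  set t := (k' : ℝ) / k with ht
  have ht0 : 0 < t := div_pos hk'R hkR
  have ht1 : t < 1 := (div_lt_one hkR).mpr hkk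
  rcases hα.eq_or_lt with h0 | hα
  · rw [← h0, Real.zero_rpow (by linarith), zero_mul, zero_mul]
    positivity
  rcases hβ.eq_or_lt with h0 | hβ
  · rw [← h0, Real.zero_rpow ht0.ne', mul_zero, zero_mul]
    positivity
  obtain ⟨L, hL1, hL2, hL3⟩ := chain_all B (bx p q) (bx_down p q B) A hA k k' hk' hk.le
  rw [gg_eq] at hL2
  have hmaj := major (range 1) (fun _ => β / α) (fun _ => α * (p * q))
    (fun l _ => by positivity) t ht0 ht1 L hL1 (by
      intro c hc
      apply hL3 c hc
      intro Y hY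
      rw [gg_eq, Finset.sum_range_one]
      have h1 := up_density (k • B) Y β p q hβB hβ.le q (le_refl _)
      have h2 : ((upS p q Y).card : ℝ) + ((dnS p q Y).card : ℝ) = (p : ℝ) * q := by
        exact_mod_cast card_up_add p q Y
      have h3 := hαA Y hY
      have h4 : c * (α * ((dnS p q Y).card : ℝ)) ≤ c * ((A \ Y).card : ℝ) := mul_le_mul_of_nonneg_left h3 hc
      have h5 : min (β / α) c * (α * (p * q)) = min (β / α) c * α * ((upS p q Y).card : ℝ) +
          min (β / α) c * α * ((dnS p q Y).card : ℝ) := by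
        rw [← h2]; ring
      rw [h5]
      have h6 : min (β / α) c * α * ((upS p q Y).card : ℝ) ≤ β * ((upS p q Y).card : ℝ) := by
        apply mul_le_mul_of_nonneg_right _ (Nat.cast_nonneg _)
        calc min (β / α) c * α ≤ β / α * α := mul_le_mul_of_nonneg_right (min_le_left _ _) hα.le
          _ = β := div_mul_cancel₀ _ hα.ne'
      have h7 : min (β / α) c * α * ((dnS p q Y).card : ℝ) ≤ c * (α * ((dnS p q Y).card : ℝ)) := by
        rw [mul_assoc]
        exact mul_le_mul_of_nonneg_right (min_le_right _ _) (by positivity)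
      linarith)
  refine le_trans (le_of_eq ?_) (hmaj.trans hL2)
  rw [Finset.sum_range_one, Real.div_rpow hβ.le hα.le]
  have : α ^ (1 - t) = α / α ^ t := by rw [Real.rpow_sub hα, Real.rpow_one]
  rw [this]
  field_simp

/-- Two down-sets in a box are positively correlated. -/
lemma down_corr (p q : ℕ) (A D : Finset (ℕ × ℕ)) (hA : ∀ x ∈ A, ∀ y, y ≤ x → y ∈ A)
    (hD : ∀ x ∈ D, ∀ y, y ≤ x → y ∈ D) (hDb : ∀ x ∈ D, bx p q x) :
    (A.filter (bx p q)).card * D.card ≤ (A ∩ D).card * (p * q) := by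
  classical
  refine (Finset.le_card_infs_mul_card_sups (A.filter (bx p q)) D).trans ?_
  apply Nat.mul_le_mul
  · apply Finset.card_le_card
    intro x hx
    rw [Finset.mem_infs] at hx
    obtain ⟨a, ha, b, hb, rfl⟩ := hx
    rw [Finset.mem_inter]
    exact ⟨hA a (Finset.mem_filter.mp ha).1 _ inf_le_left, hD b hb _ inf_le_right⟩
  · have : (A.filter (bx p q)) ⊻ D ⊆ range p ×ˢ range q := by
      intro x hx
      rw [Finset.mem_sups] at hx
      obtain ⟨a, ha, b, hb, rfl⟩ := hx
      have h1 := (Finset.mem_filter.mp ha).2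
      have h2 := hDb b hb
      unfold bx at h1 h2
      rw [Finset.mem_product, Finset.mem_range, Finset.mem_range, Prod.fst_sup, Prod.snd_sup]
      exact ⟨max_lt h1.1 h2.1, max_lt h1.2 h2.2⟩
    refine (Finset.card_le_card this).trans ?_
    rw [Finset.card_product, Finset.card_range, Finset.card_range]

end Pool.Agent.Lib_helper16.SD
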