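import Mathlib

set_option autoImplicit false

/-!
# A quotient form of Pluennecke's inequality in cancellative commutative monoids

Levels are indexed by naturals, `al j x` says that `x` is alive at level `j`.
-/

open Finset Function
open scoped Pointwise

namespace Pool.Agent.Lib_helper16.SD

variable {G : Type*} [AddCancelCommMonoid G] [DecidableEq G]

/-- Image at the next level, dead elements removed. -/
noncomputable def Im (B : Finset G) (al : ℕ → G → Prop) (j : ℕ) (P : Finset G) : Finset G := by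
  classical exact (P + B).filter (al (j + 1))

/-- Iterated image. -/
noncomputable def It (B : Finset G) (al : ℕ → G → Prop) : ℕ → Finset G → Finset G
  | 0, P => P
  | j + 1, P => Im B al j (It B al j P)

/-- The reached set at level `j` for a cut `P`. -/
noncomputable def Rch (A B : Finset G) (al : ℕ → G → Prop) (P : ℕ → Finset G) : ℕ → Finset G
  | 0 => A
  | j + 1 => Im B al j (P j)

lemma mem_Im {B : Finset G} {al : ℕ → G → Prop} {j : ℕ} {P : Finset G} {x : G} :
    x ∈ Im B al j P ↔ (∃ u ∈ P, ∃ b ∈ B, u + b = x) ∧ al (j + 1) x := by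
  classical
  unfold Im
  rw [Finset.mem_filter, Finset.mem_add]

lemma Im_mono {B : Finset G} {al : ℕ → G → Prop} {j : ℕ} {P Q : Finset G} (h : P ⊆ Q) :
    Im B al j P ⊆ Im B al j Q := by
  intro x hx
  rw [mem_Im] at hx ⊢
  obtain ⟨⟨u, hu, b, hb, e⟩, ha⟩ := hx
  exact ⟨⟨u, h hu, b, hb, e⟩, ha⟩

lemma Im_empty {B : Finset G} {al : ℕ → G → Prop} {j : ℕ} :
    Im B al j ∅ = ∅ := by
  ext x
  rw [mem_Im]
  simp

/-- The layer cake lemma. -/
lemma layer_cake {α β : Type*} [DecidableEq α] [DecidableEq β] (S : Finset α) (U : Finset β)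
    (r : β → α → Prop) (f : α → ℕ) (g : β → ℕ) (C : ℝ)
    (hall : ∀ T : Finset α, T ⊆ S → ∀ N : Finset β, N ⊆ U →
      (∀ u ∈ U, (∃ s ∈ T, r u s) → u ∈ N) → (T.card : ℝ) ≤ C * N.card)
    (hfg : ∀ u ∈ U, ∀ s ∈ S, r u s → f s ≤ g u) :
    ((∑ s ∈ S, f s : ℕ) : ℝ) ≤ C * ((∑ u ∈ U, g u : ℕ) : ℝ) := by
  classical
  -- induction on the maximal value
  have key : ∀ n : ℕ, ((∑ s ∈ S, min (f s) n : ℕ) : ℝ) ≤ C * ((∑ u ∈ U, min (g u) n : ℕ) : ℝ) := by
    intro n
    induction n with
    | zero => simp
    | succ n ih =>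
      have e1 : ∀ s, min (f s) (n + 1) = min (f s) n + (if n + 1 ≤ f s then 1 else 0) := by
        intro s; split_ifs <;> omega
      have e2 : ∀ s, min (g s) (n + 1) = min (g s) n + (if n + 1 ≤ g s then 1 else 0) := by
        intro s; split_ifs <;> omega
      have h1 : ∑ s ∈ S, min (f s) (n + 1) = ∑ s ∈ S, min (f s) n + (S.filter (fun s => n + 1 ≤ f s)).card := by
        rw [Finset.sum_congr rfl (fun s _ => e1 s), Finset.sum_add_distrib, Finset.card_filter]
      have h2 : ∑ s ∈ U, min (g s) (n + 1) = ∑ s ∈ U, min (g s) n + (U.filter (fun s => n + 1 ≤ g s)).card := by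
        rw [Finset.sum_congr rfl (fun s _ => e2 s), Finset.sum_add_distrib, Finset.card_filter]
      have h3 := hall (S.filter (fun s => n + 1 ≤ f s)) (Finset.filter_subset _ _)
        (U.filter (fun s => n + 1 ≤ g s)) (Finset.filter_subset _ _) (by
          intro u hu ⟨s, hs, hr⟩
          rw [Finset.mem_filter] at hs ⊢
          exact ⟨hu, hs.2.trans (hfg u hu s hs.1 hr)⟩)
      rw [h1, h2]
      push_cast
      push_cast at ih
      nlinarith
  set n := ∑ s ∈ S, f s + ∑ u ∈ U, g u with hn
  have h1 : ∑ s ∈ S, min (f s) n = ∑ s ∈ S, f s := by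
    apply Finset.sum_congr rfl
    intro s hs
    apply min_eq_left
    have := Finset.single_le_sum (f := f) (fun i _ => Nat.zero_le _) hs
    omega
  have h2 : ∑ s ∈ U, min (g s) n = ∑ s ∈ U, g s := by
    apply Finset.sum_congr rfl
    intro s hs
    apply min_eq_left
    have := Finset.single_le_sum (f := g) (fun i _ => Nat.zero_le _) hs
    omega
  have := key n
  rw [h1, h2] at this
  exact this

/-- The cost of a cut. -/
noncomputable def cost (A B : Finset G) (al : ℕ → G → Prop) (h : ℕ) (w : ℝ) (P : ℕ → Finset G) : ℝ :=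
  ∑ j ∈ range (h + 1), w ^ j * ((Rch A B al P j \ P j).card : ℝ)

lemma Rch_update_of_ne (A B : Finset G) (al : ℕ → G → Prop) (P : ℕ → Finset G) (i j : ℕ)
    (Q : Finset G) (h : j ≠ i + 1) :
    Rch A B al (update P i Q) j = Rch A B al P j := by
  cases j with
  | zero => rfl
  | succ j =>
    have : j ≠ i := fun e => h (by rw [e])
    simp only [Rch]
    rw [update_of_ne this]

lemma Rch_update_succ (A B : Finset G) (al : ℕ → G → Prop) (P : ℕ → Finset G) (i : ℕ)
    (Q : Finset G) :
    Rch A B al (update P i Q) (i + 1) = Im B al i Q := by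
  simp [Rch]

/-- Change of the cost when the cut is changed at one level. -/
lemma cost_update_le (A B : Finset G) (al : ℕ → G → Prop) (h : ℕ) (w : ℝ) (hw : 0 < w)
    (P : ℕ → Finset G) (i : ℕ) (hi : i + 1 ≤ h) (Q : Finset G) (x y : ℝ)
    (hx : ((Rch A B al P i \ Q).card : ℝ) ≤ ((Rch A B al P i \ P i).card : ℝ) + x)
    (hy : ((Im B al i Q \ P (i + 1)).card : ℝ) ≤ ((Im B al i (P i) \ P (i + 1)).card : ℝ) + y) :
    cost A B al h w (update P i Q) ≤ cost A B al h w P + w ^ i * x + w ^ (i + 1) * y := by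
  unfold cost
  have hb : ∀ j ∈ range (h + 1), w ^ j * ((Rch A B al (update P i Q) j \ (update P i Q) j).card : ℝ) ≤
      w ^ j * ((Rch A B al P j \ P j).card : ℝ) + ((if j = i then w ^ i * x else 0) +
        (if j = i + 1 then w ^ (i + 1) * y else 0)) := by
    intro j _
    by_cases h1 : j = i
    · subst h1
      have h2 : ¬ (j = j + 1) := by omega
      rw [Rch_update_of_ne A B al P j j Q (by omega), update_self, if_pos rfl, if_neg h2]
      have := mul_le_mul_of_nonneg_left hx (pow_pos hw j).le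
      linarith
    · by_cases h2 : j = i + 1
      · subst h2
        have e : (Rch A B al P (i + 1)) = Im B al i (P i) := rfl
        rw [Rch_update_succ, update_of_ne (by omega), if_neg h1, if_pos rfl, e]
        have := mul_le_mul_of_nonneg_left hy (pow_pos hw (i + 1)).le
        linarith
      · rw [Rch_update_of_ne A B al P i j Q h2, update_of_ne h1, if_neg h1, if_neg h2]
        simp
  refine (Finset.sum_le_sum hb).trans ?_
  rw [Finset.sum_add_distrib, Finset.sum_add_distrib, Finset.sum_ite_eq', Finset.sum_ite_eq',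
    if_pos (by simp; omega), if_pos (by simp; omega)]
  linarith


/-- Admissible cuts. -/
def Adm (A B : Finset G) (al : ℕ → G → Prop) (h : ℕ) (P : ℕ → Finset G) : Prop :=
  (∀ j, P j ⊆ It B al j A) ∧ ∀ j, h ≤ j → P j = ∅

lemma exists_opt (A B : Finset G) (al : ℕ → G → Prop) (h : ℕ) (w : ℝ) :
    ∃ P, Adm A B al h P ∧ (∀ P', Adm A B al h P' → cost A B al h w P ≤ cost A B al h w P') ∧
      (∀ P', Adm A B al h P' → cost A B al h w P' ≤ cost A B al h w P →
        ∑ j ∈ range h, (P' j).card ≤ ∑ j ∈ range h, (P j).card) := by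
  classical
  set ext : (Fin h → Finset G) → ℕ → Finset G := fun p j => if hj : j < h then p ⟨j, hj⟩ else ∅ with hext
  set F : Finset (Fin h → Finset G) := Fintype.piFinset (fun j : Fin h => (It B al j A).powerset) with hF
  have hFne : F.Nonempty := ⟨fun _ => ∅, by simp [hF]⟩
  obtain ⟨p0, hp0, hmin⟩ := Finset.exists_min_image F (fun p => cost A B al h w (ext p)) hFne
  set F' := F.filter (fun p => cost A B al h w (ext p) ≤ cost A B al h w (ext p0)) with hF'
  have hF'ne : F'.Nonempty := ⟨p0, by rw [hF', Finset.mem_filter]; exact ⟨hp0, le_refl _⟩⟩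
  obtain ⟨p, hp, hmax⟩ := Finset.exists_max_image F' (fun p => ∑ j ∈ range h, (ext p j).card) hF'ne
  rw [hF', Finset.mem_filter] at hp
  have hadm : ∀ q ∈ F, Adm A B al h (ext q) := by
    intro q hq
    rw [hF, Fintype.mem_piFinset] at hq
    constructor
    · intro j
      simp only [hext]
      split_ifs with hj
      · exact Finset.mem_powerset.mp (hq ⟨j, hj⟩)
      · exact Finset.empty_subset _
    · intro j hj
      simp only [hext]
      rw [dif_neg (by omega)]
  have hrep : ∀ P', Adm A B al h P' → ∃ q ∈ F, ext q = P' := by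
    intro P' hP'
    refine ⟨fun j => P' j, ?_, ?_⟩
    · rw [hF, Fintype.mem_piFinset]
      intro j
      exact Finset.mem_powerset.mpr (hP'.1 j)
    · funext j
      simp only [hext]
      split_ifs with hj
      · rfl
      · exact (hP'.2 j (by omega)).symm
  refine ⟨ext p, hadm p hp.1, ?_, ?_⟩
  · intro P' hP'
    obtain ⟨q, hq, rfl⟩ := hrep P' hP'
    exact hp.2.trans (hmin q hq)
  · intro P' hP' hc
    obtain ⟨q, hq, rfl⟩ := hrep P' hP'
    apply hmax q
    rw [hF', Finset.mem_filter]
    exact ⟨hq, hc.trans hp.2⟩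

lemma It_mono {B : Finset G} {al : ℕ → G → Prop} {P Q : Finset G} (h : P ⊆ Q) (j : ℕ) :
    It B al j P ⊆ It B al j Q := by
  induction j with
  | zero => exact h
  | succ j ih => exact Im_mono ih

/-- The key step: an optimal cut is closed in the middle levels. -/
lemma opt_closed (A B : Finset G) (al : ℕ → G → Prop)
    (hal : ∀ j x b, b ∈ B → al (j + 1) (x + b) → al j x) (h : ℕ) (C : ℝ) (hC : 0 < C)
    (P : ℕ → Finset G) (hP : Adm A B al h P)
    (hmin : ∀ P', Adm A B al h P' → cost A B al h C⁻¹ P ≤ cost A B al h C⁻¹ P')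
    (hmax : ∀ P', Adm A B al h P' → cost A B al h C⁻¹ P' ≤ cost A B al h C⁻¹ P →
        ∑ j ∈ range h, (P' j).card ≤ ∑ j ∈ range h, (P j).card)
    (j : ℕ) (hj : j + 1 < h) : Im B al j (P j) ⊆ P (j + 1) := by
  classical
  by_contra hcon
  set w := C⁻¹ with hw
  have hw0 : 0 < w := inv_pos.mpr hC
  set S := Im B al j (P j) \ P (j + 1) with hS
  have hSne : S.Nonempty := by
    rw [hS, Finset.sdiff_nonempty]
    exact hcon
  set Q := Im B al (j + 1) (P (j + 1)) with hQ
  have hRsub : Im B al j (P j) ⊆ It B al (j + 1) A := Im_mono (hP.1 j)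
  -- (a)
  have ha : ∀ T ⊆ S, C * (T.card : ℝ) ≤ ((Im B al (j + 1) T \ Q).card : ℝ) := by
    intro T hT
    have hadm : Adm A B al h (update P (j + 1) (P (j + 1) ∪ T)) := by
      constructor
      · intro i
        by_cases hi : i = j + 1
        · subst hi
          rw [update_self]
          apply Finset.union_subset (hP.1 _)
          exact (hT.trans Finset.sdiff_subset).trans hRsub
        · rw [update_of_ne hi]; exact hP.1 i
      · intro i hi
        rw [update_of_ne (by omega)]; exact hP.2 i hi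
    have h1 := hmin _ hadm
    have h2 := cost_update_le A B al h w hw0 P (j + 1) (by omega) (P (j + 1) ∪ T) (-(T.card : ℝ))
      ((Im B al (j + 1) T \ Q).card : ℝ) (by
        have e1 : Rch A B al P (j + 1) = Im B al j (P j) := rfl
        rw [e1]
        have e2 : Im B al j (P j) \ (P (j + 1) ∪ T) = S \ T := by
          rw [hS]; ext x; simp only [Finset.mem_sdiff, Finset.mem_union]; tauto
        rw [e2, Finset.card_sdiff_of_subset hT]
        have := Finset.card_le_card hT
        push_cast [Nat.cast_sub this]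
        linarith) (by
        have e1 : Im B al (j + 1) (P (j + 1) ∪ T) \ P (j + 1 + 1) ⊆
            (Im B al (j + 1) (P (j + 1)) \ P (j + 1 + 1)) ∪ (Im B al (j + 1) T \ Q) := by
          intro x hx
          rw [Finset.mem_sdiff, mem_Im] at hx
          obtain ⟨⟨⟨u, hu, b, hb, e⟩, hax⟩, hx2⟩ := hx
          rw [Finset.mem_union, Finset.mem_sdiff, Finset.mem_sdiff]
          by_cases hxQ : x ∈ Q
          · left; exact ⟨hxQ, hx2⟩
          · right
            refine ⟨?_, hxQ⟩
            rw [mem_Im]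
            refine ⟨⟨u, ?_, b, hb, e⟩, hax⟩
            rw [Finset.mem_union] at hu
            rcases hu with hu | hu
            · exfalso; apply hxQ; rw [hQ, mem_Im]; exact ⟨⟨u, hu, b, hb, e⟩, hax⟩
            · exact hu
        have e2 := (Finset.card_le_card e1).trans (Finset.card_union_le _ _)
        exact_mod_cast e2)
    have h3 : 0 ≤ w ^ (j + 1) * (-(T.card : ℝ)) + w ^ (j + 1 + 1) * ((Im B al (j + 1) T \ Q).card : ℝ) := by
      linarith
    have h4 : 0 ≤ w ^ (j + 1) * (-(T.card : ℝ) + w * ((Im B al (j + 1) T \ Q).card : ℝ)) := by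
      have : w ^ (j + 1) * (-(T.card : ℝ) + w * ((Im B al (j + 1) T \ Q).card : ℝ)) =
        w ^ (j + 1) * (-(T.card : ℝ)) + w ^ (j + 1 + 1) * ((Im B al (j + 1) T \ Q).card : ℝ) := by ring
      rw [this]; exact h3
    have h5 := (mul_nonneg_iff_of_pos_left (pow_pos hw0 (j + 1))).mp h4
    have h6 : C * (T.card : ℝ) ≤ C * (w * ((Im B al (j + 1) T \ Q).card : ℝ)) :=
      mul_le_mul_of_nonneg_left (by linarith) hC.le
    rw [← mul_assoc, hw, mul_inv_cancel₀ hC.ne', one_mul] at h6
    exact h6
  -- (b)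
  have hb : ∀ T ⊆ S, ∀ N ⊆ P j, (∀ u ∈ P j, (∃ s ∈ T, ∃ b ∈ B, u + b = s) → u ∈ N) →
      (T.card : ℝ) ≤ C * (N.card : ℝ) := by
    intro T hT N hN hU
    have hadm : Adm A B al h (update P j (P j \ N)) := by
      constructor
      · intro i
        by_cases hi : i = j
        · subst hi
          rw [update_self]
          exact Finset.sdiff_subset.trans (hP.1 _)
        · rw [update_of_ne hi]; exact hP.1 i
      · intro i hi
        rw [update_of_ne (by omega)]; exact hP.2 i hi
    have h1 := hmin _ hadm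
    have h2 := cost_update_le A B al h w hw0 P j (by omega) (P j \ N) (N.card : ℝ)
      (-(T.card : ℝ)) (by
        have e1 : Rch A B al P j \ (P j \ N) ⊆ (Rch A B al P j \ P j) ∪ N := by
          intro x hx
          rw [Finset.mem_sdiff, Finset.mem_sdiff] at hx
          rw [Finset.mem_union, Finset.mem_sdiff]
          tauto
        have e2 := (Finset.card_le_card e1).trans (Finset.card_union_le _ _)
        exact_mod_cast e2) (by
        have e1 : Im B al j (P j \ N) \ P (j + 1) ⊆ S \ T := by
          intro x hx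
          rw [Finset.mem_sdiff, mem_Im] at hx
          obtain ⟨⟨⟨u, hu, b, hb, e⟩, hax⟩, hx2⟩ := hx
          rw [Finset.mem_sdiff] at hu
          rw [Finset.mem_sdiff, hS, Finset.mem_sdiff, mem_Im]
          refine ⟨⟨⟨⟨u, hu.1, b, hb, e⟩, hax⟩, hx2⟩, ?_⟩
          intro hxT
          exact hu.2 (hU u hu.1 ⟨x, hxT, b, hb, e⟩)
        have e2 := Finset.card_le_card e1
        rw [Finset.card_sdiff_of_subset hT] at e2
        have e3 := Finset.card_le_card hT
        have e4 : ((Im B al j (P j \ N) \ P (j + 1)).card : ℝ) ≤ ((S.card - T.card : ℕ) : ℝ) := by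
          exact_mod_cast e2
        rw [Nat.cast_sub e3] at e4
        linarith)
    have h3 : 0 ≤ w ^ j * ((N.card : ℝ) - w * (T.card : ℝ)) := by
      have : w ^ j * ((N.card : ℝ) - w * (T.card : ℝ)) =
        w ^ j * (N.card : ℝ) + w ^ (j + 1) * (-(T.card : ℝ)) := by ring
      rw [this]; linarith
    have h5 := (mul_nonneg_iff_of_pos_left (pow_pos hw0 j)).mp h3
    have h6 : C * (w * (T.card : ℝ)) ≤ C * (N.card : ℝ) :=
      mul_le_mul_of_nonneg_left (by linarith) hC.le
    rw [← mul_assoc, hw, mul_inv_cancel₀ hC.ne', one_mul] at h6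
    exact h6
  set Y := Im B al (j + 1) S \ Q with hY
  -- degrees
  set d1 : G → ℕ := fun u => (B.filter (fun b => u + b ∈ S)).card with hd1
  set d2 : G → ℕ := fun s => (B.filter (fun b => s + b ∈ Y)).card with hd2
  set d3 : G → ℕ := fun s => (B.filter (fun b => ∃ u ∈ P j, u + b = s)).card with hd3
  set d4 : G → ℕ := fun y => (B.filter (fun b => ∃ s ∈ S, s + b = y)).card with hd4
  -- commutativity
  have comm : ∀ u ∈ P j, ∀ b ∈ B, ∀ s ∈ S, u + b = s → ∀ b' ∈ B, s + b' ∈ Y → u + b' ∈ S := by
    intro u hu b hb s hs e b' hb' hy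
    have hy0 := hy
    rw [hY, Finset.mem_sdiff, mem_Im] at hy
    obtain ⟨⟨_, hay⟩, hyQ⟩ := hy
    have e2 : (u + b') + b = s + b' := by rw [← e]; abel
    have hal1 : al (j + 1) (u + b') := hal (j + 1) (u + b') b hb (by rw [e2]; exact hay)
    rw [hS, Finset.mem_sdiff, mem_Im]
    refine ⟨⟨⟨u, hu, b', hb', rfl⟩, hal1⟩, ?_⟩
    intro hmem
    apply hyQ
    rw [hQ, mem_Im]
    exact ⟨⟨u + b', hmem, b, hb, e2⟩, hay⟩
  -- edge counts
  have he1 : ∑ u ∈ P j, d1 u = ∑ s ∈ S, d3 s := by
    have := Finset.sum_card_bipartiteAbove_eq_sum_card_bipartiteBelow (s := P j) (t := S)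
      (fun u s => ∃ b ∈ B, u + b = s)
    have l1 : ∀ u ∈ P j, d1 u = (bipartiteAbove (fun u s => ∃ b ∈ B, u + b = s) S u).card := by
      intro u hu
      rw [hd1]
      apply Finset.card_bij (fun b _ => u + b)
      · intro b hb
        rw [Finset.mem_filter] at hb
        rw [Finset.mem_bipartiteAbove]
        exact ⟨hb.2, b, hb.1, rfl⟩
      · intro b _ b' _ e
        exact add_left_cancel e
      · intro s hs
        rw [Finset.mem_bipartiteAbove] at hs
        obtain ⟨hs, b, hb, e⟩ := hs
        exact ⟨b, by rw [Finset.mem_filter]; exact ⟨hb, by rw [e]; exact hs⟩, e⟩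
    have l2 : ∀ s ∈ S, d3 s = (bipartiteBelow (fun u s => ∃ b ∈ B, u + b = s) (P j) s).card := by
      intro s hs
      rw [hd3]
      apply Finset.card_bij (fun b hb => (Finset.mem_filter.mp hb).2.choose)
      · intro b hb
        have hh := (Finset.mem_filter.mp hb).2.choose_spec
        rw [Finset.mem_bipartiteBelow]
        exact ⟨hh.1, b, (Finset.mem_filter.mp hb).1, hh.2⟩
      · intro b hb b' hb' e
        have hh := (Finset.mem_filter.mp hb).2.choose_spec
        have hh' := (Finset.mem_filter.mp hb').2.choose_spec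
        have e3 := hh.2.trans hh'.2.symm
        rw [← e] at e3
        exact add_left_cancel e3
      · intro u hu
        rw [Finset.mem_bipartiteBelow] at hu
        obtain ⟨hu, b, hb, e⟩ := hu
        refine ⟨b, by rw [Finset.mem_filter]; exact ⟨hb, u, hu, e⟩, ?_⟩
        have hb2 : b ∈ B.filter (fun b => ∃ u ∈ P j, u + b = s) := by
          rw [Finset.mem_filter]; exact ⟨hb, u, hu, e⟩
        have hh := (Finset.mem_filter.mp hb2).2.choose_spec
        exact add_right_cancel (hh.2.trans e.symm)
    rw [Finset.sum_congr rfl l1, Finset.sum_congr rfl l2]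
    exact this
  have he2 : ∑ s ∈ S, d2 s = ∑ y ∈ Y, d4 y := by
    have := Finset.sum_card_bipartiteAbove_eq_sum_card_bipartiteBelow (s := S) (t := Y)
      (fun u s => ∃ b ∈ B, u + b = s)
    have l1 : ∀ u ∈ S, d2 u = (bipartiteAbove (fun u s => ∃ b ∈ B, u + b = s) Y u).card := by
      intro u hu
      rw [hd2]
      apply Finset.card_bij (fun b _ => u + b)
      · intro b hb
        rw [Finset.mem_filter] at hb
        rw [Finset.mem_bipartiteAbove]
        exact ⟨hb.2, b, hb.1, rfl⟩
      · intro b _ b' _ e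
        exact add_left_cancel e
      · intro s hs
        rw [Finset.mem_bipartiteAbove] at hs
        obtain ⟨hs, b, hb, e⟩ := hs
        exact ⟨b, by rw [Finset.mem_filter]; exact ⟨hb, by rw [e]; exact hs⟩, e⟩
    have l2 : ∀ s ∈ Y, d4 s = (bipartiteBelow (fun u s => ∃ b ∈ B, u + b = s) S s).card := by
      intro s hs
      rw [hd4]
      apply Finset.card_bij (fun b hb => (Finset.mem_filter.mp hb).2.choose)
      · intro b hb
        have hh := (Finset.mem_filter.mp hb).2.choose_spec
        rw [Finset.mem_bipartiteBelow]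
        exact ⟨hh.1, b, (Finset.mem_filter.mp hb).1, hh.2⟩
      · intro b hb b' hb' e
        have hh := (Finset.mem_filter.mp hb).2.choose_spec
        have hh' := (Finset.mem_filter.mp hb').2.choose_spec
        have e3 := hh.2.trans hh'.2.symm
        rw [← e] at e3
        exact add_left_cancel e3
      · intro u hu
        rw [Finset.mem_bipartiteBelow] at hu
        obtain ⟨hu, b, hb, e⟩ := hu
        refine ⟨b, by rw [Finset.mem_filter]; exact ⟨hb, u, hu, e⟩, ?_⟩
        have hb2 : b ∈ B.filter (fun b => ∃ u ∈ S, u + b = s) := by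
          rw [Finset.mem_filter]; exact ⟨hb, u, hu, e⟩
        have hh := (Finset.mem_filter.mp hb2).2.choose_spec
        exact add_right_cancel (hh.2.trans e.symm)
    rw [Finset.sum_congr rfl l1, Finset.sum_congr rfl l2]
    exact this
  -- first inequality
  have hI : ((∑ s ∈ S, d2 s : ℕ) : ℝ) ≤ C * ((∑ u ∈ P j, d1 u : ℕ) : ℝ) := by
    apply layer_cake S (P j) (fun u s => ∃ b ∈ B, u + b = s) d2 d1 C
    · intro T hT N hN hU
      exact hb T hT N hN hU
    · intro u hu s hs ⟨b, hb, e⟩
      rw [hd1, hd2]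
      apply Finset.card_le_card
      intro b' hb'
      rw [Finset.mem_filter] at hb' ⊢
      exact ⟨hb'.1, comm u hu b hb s hs e b' hb'.1 hb'.2⟩
  -- second inequality
  have hII : ((∑ s ∈ S, (d3 s - 1) : ℕ) : ℝ) ≤ C⁻¹ * ((∑ y ∈ Y, (d4 y - 1) : ℕ) : ℝ) := by
    apply layer_cake S Y (fun y s => ∃ b ∈ B, s + b = y) (fun s => d3 s - 1) (fun y => d4 y - 1) C⁻¹
    · intro T hT N hN hU
      have h1 := ha T hT
      have h2 : Im B al (j + 1) T \ Q ⊆ N := by
        intro y hy
        have hyY : y ∈ Y := by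
          rw [hY]
          exact Finset.sdiff_subset_sdiff (Im_mono hT) (subset_refl _) hy
        apply hU y hyY
        rw [Finset.mem_sdiff, mem_Im] at hy
        obtain ⟨⟨⟨s, hs, b, hb, e⟩, _⟩, _⟩ := hy
        exact ⟨s, hs, b, hb, e⟩
      have h3 : ((Im B al (j + 1) T \ Q).card : ℝ) ≤ (N.card : ℝ) := by
        exact_mod_cast Finset.card_le_card h2
      rw [inv_mul_eq_div, le_div_iff₀ hC]
      linarith
    · intro y hy s hs ⟨b, hb, e⟩
      apply Nat.sub_le_sub_right
      rw [hd3, hd4]
      apply Finset.card_le_card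
      intro b' hb'
      rw [Finset.mem_filter] at hb' ⊢
      obtain ⟨hb', u, hu, e'⟩ := hb'
      refine ⟨hb', u + b, ?_, ?_⟩
      · exact comm u hu b' hb' s hs e' b hb (by rw [e]; exact hy)
      · rw [← e, ← e']; abel
  have h3pos : ∀ s ∈ S, 1 ≤ d3 s := by
    intro s hs
    rw [hd3]
    apply Finset.card_pos.mpr
    rw [hS, Finset.mem_sdiff, mem_Im] at hs
    obtain ⟨⟨⟨u, hu, b, hb, e⟩, _⟩, _⟩ := hs
    exact ⟨b, by rw [Finset.mem_filter]; exact ⟨hb, u, hu, e⟩⟩
  have h4pos : ∀ y ∈ Y, 1 ≤ d4 y := by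
    intro y hy
    rw [hd4]
    apply Finset.card_pos.mpr
    rw [hY, Finset.mem_sdiff, mem_Im] at hy
    obtain ⟨⟨⟨u, hu, b, hb, e⟩, _⟩, _⟩ := hy
    exact ⟨b, by rw [Finset.mem_filter]; exact ⟨hb, u, hu, e⟩⟩
  have hs3 : ∑ s ∈ S, (d3 s - 1) + S.card = ∑ s ∈ S, d3 s := by
    rw [Finset.card_eq_sum_ones, ← Finset.sum_add_distrib]
    apply Finset.sum_congr rfl
    intro s hs
    have := h3pos s hs
    omega
  have hs4 : ∑ y ∈ Y, (d4 y - 1) + Y.card = ∑ y ∈ Y, d4 y := by
    rw [Finset.card_eq_sum_ones, ← Finset.sum_add_distrib]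
    apply Finset.sum_congr rfl
    intro s hs
    have := h4pos s hs
    omega
  have hYle : (Y.card : ℝ) ≤ C * S.card := by
    have k1 : ((∑ s ∈ S, (d3 s - 1) : ℕ) : ℝ) + S.card = ((∑ s ∈ S, d3 s : ℕ) : ℝ) := by
      exact_mod_cast hs3
    have k2 : ((∑ y ∈ Y, (d4 y - 1) : ℕ) : ℝ) + Y.card = ((∑ y ∈ Y, d4 y : ℕ) : ℝ) := by
      exact_mod_cast hs4
    have k3 : C * ((∑ s ∈ S, (d3 s - 1) : ℕ) : ℝ) ≤ ((∑ y ∈ Y, (d4 y - 1) : ℕ) : ℝ) := by
      rw [inv_mul_eq_div, le_div_iff₀ hC] at hII
      linarith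
    rw [he1, he2] at hI
    have k4 : C * ((∑ s ∈ S, d3 s : ℕ) : ℝ) = C * ((∑ s ∈ S, (d3 s - 1) : ℕ) : ℝ) + C * S.card := by
      rw [← k1]; ring
    linarith
  -- contradiction with maximality
  have hadm : Adm A B al h (update P (j + 1) (P (j + 1) ∪ S)) := by
    constructor
    · intro i
      by_cases hi : i = j + 1
      · subst hi
        rw [update_self]
        apply Finset.union_subset (hP.1 _)
        exact (Finset.sdiff_subset).trans hRsub
      · rw [update_of_ne hi]; exact hP.1 i
    · intro i hi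
      rw [update_of_ne (by omega)]; exact hP.2 i hi
  have h2 := cost_update_le A B al h w hw0 P (j + 1) (by omega) (P (j + 1) ∪ S) (-(S.card : ℝ))
      (Y.card : ℝ) (by
        have e1 : Rch A B al P (j + 1) = Im B al j (P j) := rfl
        rw [e1]
        have e2 : Im B al j (P j) \ (P (j + 1) ∪ S) = ∅ := by
          rw [hS]; ext x; simp only [Finset.mem_sdiff, Finset.mem_union, Finset.notMem_empty, iff_false]; tauto
        rw [e2, ← hS]
        simp) (by
        have e1 : Im B al (j + 1) (P (j + 1) ∪ S) \ P (j + 1 + 1) ⊆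
            (Im B al (j + 1) (P (j + 1)) \ P (j + 1 + 1)) ∪ Y := by
          intro x hx
          rw [Finset.mem_sdiff, mem_Im] at hx
          obtain ⟨⟨⟨u, hu, b, hb, e⟩, hax⟩, hx2⟩ := hx
          rw [Finset.mem_union, Finset.mem_sdiff, hY, Finset.mem_sdiff]
          by_cases hxQ : x ∈ Q
          · left; exact ⟨hxQ, hx2⟩
          · right
            refine ⟨?_, hxQ⟩
            rw [mem_Im]
            refine ⟨⟨u, ?_, b, hb, e⟩, hax⟩
            rw [Finset.mem_union] at hu
            rcases hu with hu | hu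
            · exfalso; apply hxQ; rw [hQ, mem_Im]; exact ⟨⟨u, hu, b, hb, e⟩, hax⟩
            · exact hu
        have e2 := (Finset.card_le_card e1).trans (Finset.card_union_le _ _)
        exact_mod_cast e2)
  have h3 : cost A B al h w (update P (j + 1) (P (j + 1) ∪ S)) ≤ cost A B al h w P := by
    have : w ^ (j + 1) * (-(S.card : ℝ)) + w ^ (j + 1 + 1) * (Y.card : ℝ) ≤ 0 := by
      have e : w ^ (j + 1) * (-(S.card : ℝ)) + w ^ (j + 1 + 1) * (Y.card : ℝ) =
        w ^ (j + 1) * (w * Y.card - S.card) := by ring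
      rw [e]
      apply mul_nonpos_of_nonneg_of_nonpos (pow_pos hw0 _).le
      have : w * (Y.card : ℝ) ≤ w * (C * S.card) := mul_le_mul_of_nonneg_left hYle hw0.le
      rw [← mul_assoc, hw, inv_mul_cancel₀ hC.ne', one_mul] at this
      linarith
    linarith
  have h4 := hmax _ hadm h3
  have h5 : ∑ i ∈ range h, (P i).card < ∑ i ∈ range h, ((update P (j + 1) (P (j + 1) ∪ S)) i).card := by
    apply Finset.sum_lt_sum
    · intro i _
      by_cases hi : i = j + 1
      · subst hi
        rw [update_self]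
        exact Finset.card_le_card Finset.subset_union_left
      · rw [update_of_ne hi]
    · refine ⟨j + 1, Finset.mem_range.mpr hj, ?_⟩
      rw [update_self, Finset.card_union_of_disjoint (by rw [hS]; exact Finset.disjoint_sdiff)]
      have := Finset.card_pos.mpr hSne
      omega
  omega

/-- Pluennecke's inequality, quotient form. -/
theorem pluennecke (A B : Finset G) (al : ℕ → G → Prop)
    (hal : ∀ j x b, b ∈ B → al (j + 1) (x + b) → al j x) (h : ℕ) (hh : 0 < h) (C : ℝ) (hC : 0 < C)
    (hyp : ∀ Y ⊆ A, C ^ h * (Y.card : ℝ) ≤ ((It B al h Y).card : ℝ)) (j : ℕ) (hj : j ≤ h) :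
    C ^ j * (A.card : ℝ) ≤ ((It B al j A).card : ℝ) := by
  classical
  set w := C⁻¹ with hw
  have hw0 : 0 < w := inv_pos.mpr hC
  obtain ⟨P, hP, hmin, hmax⟩ := exists_opt A B al h w
  have hcl := fun i hi => opt_closed A B al hal h C hC P hP hmin hmax i hi
  have hIt : ∀ i, i < h → It B al i (P 0) ⊆ P i := by
    intro i
    induction i with
    | zero => intro _; exact subset_refl _
    | succ i ih =>
      intro hi
      exact (Im_mono (ih (by omega))).trans (hcl i hi)
  obtain ⟨h', rfl⟩ : ∃ h', h = h' + 1 := ⟨h - 1, by omega⟩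
  have hR : It B al (h' + 1) (P 0) ⊆ Rch A B al P (h' + 1) := Im_mono (hIt h' (by omega))
  have hP0 : P 0 ⊆ A := hP.1 0
  -- lower bound for the minimal cost
  have hlow : (A.card : ℝ) ≤ cost A B al (h' + 1) w P := by
    have h1 : w ^ 0 * ((Rch A B al P 0 \ P 0).card : ℝ) + w ^ (h' + 1) * ((Rch A B al P (h' + 1) \ P (h' + 1)).card : ℝ)
        ≤ cost A B al (h' + 1) w P := by
      unfold cost
      rw [Finset.sum_range_succ, Finset.sum_range_succ']
      have : 0 ≤ ∑ k ∈ range h', w ^ (k + 1) * ((Rch A B al P (k + 1) \ P (k + 1)).card : ℝ) :=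
        Finset.sum_nonneg (fun k _ => mul_nonneg (pow_pos hw0 _).le (Nat.cast_nonneg _))
      linarith
    have h2 : ((Rch A B al P 0 \ P 0).card : ℝ) = A.card - (P 0).card := by
      have : Rch A B al P 0 = A := rfl
      rw [this, Finset.card_sdiff_of_subset hP0, Nat.cast_sub (Finset.card_le_card hP0)]
    have h3 : ((P 0).card : ℝ) ≤ w ^ (h' + 1) * ((Rch A B al P (h' + 1) \ P (h' + 1)).card : ℝ) := by
      rw [hP.2 (h' + 1) (le_refl _), Finset.sdiff_empty]
      have h4 := hyp (P 0) hP0
      have h5 : ((It B al (h' + 1) (P 0)).card : ℝ) ≤ ((Rch A B al P (h' + 1)).card : ℝ) := by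
        exact_mod_cast Finset.card_le_card hR
      have h6 : w ^ (h' + 1) * (C ^ (h' + 1) * ((P 0).card : ℝ)) ≤ w ^ (h' + 1) * ((Rch A B al P (h' + 1)).card : ℝ) :=
        mul_le_mul_of_nonneg_left (h4.trans h5) (pow_pos hw0 _).le
      rw [← mul_assoc, ← mul_pow, hw, inv_mul_cancel₀ hC.ne', one_pow, one_mul] at h6
      exact h6
    rw [pow_zero, one_mul] at h1
    linarith
  -- the test cut
  set P' : ℕ → Finset G := fun i => if i < j then It B al i A else ∅ with hP'
  have hadm : Adm A B al (h' + 1) P' := by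
    constructor
    · intro i
      simp only [hP']
      split_ifs
      · exact subset_refl _
      · exact Finset.empty_subset _
    · intro i hi
      simp only [hP']
      rw [if_neg (by omega)]
  have hc := hmin P' hadm
  have hcost : cost A B al (h' + 1) w P' = w ^ j * ((It B al j A).card : ℝ) := by
    unfold cost
    rw [Finset.sum_eq_single_of_mem j (by rw [Finset.mem_range]; omega)]
    · congr 2
      have e1 : P' j = ∅ := by simp [hP']
      rw [e1, Finset.sdiff_empty]
      cases j with
      | zero => rfl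
      | succ j =>
        have : P' j = It B al j A := by simp [hP']
        simp only [Rch]
        rw [this]
        rfl
    · intro i _ hij
      rcases lt_or_gt_of_ne hij with hlt | hgt
      · have e1 : P' i = It B al i A := by simp [hP', hlt]
        have e2 : Rch A B al P' i = It B al i A := by
          cases i with
          | zero => rfl
          | succ i =>
            have : P' i = It B al i A := by
              simp only [hP']
              rw [if_pos (by omega)]
            simp only [Rch]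
            rw [this]
            rfl
        rw [e1, e2]
        simp
      · obtain ⟨i, rfl⟩ : ∃ i', i = i' + 1 := ⟨i - 1, by omega⟩
        have e1 : P' i = ∅ := by
          simp only [hP']
          rw [if_neg (by omega)]
        simp only [Rch]
        rw [e1, Im_empty]
        simp
  rw [hcost] at hc
  have h7 : C ^ j * (A.card : ℝ) ≤ C ^ j * (w ^ j * ((It B al j A).card : ℝ)) :=
    mul_le_mul_of_nonneg_left (hlow.trans hc) (pow_pos hC j).le
  rw [← mul_assoc, ← mul_pow, hw, mul_inv_cancel₀ hC.ne', one_pow, one_mul] at h7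
  exact h7

end Pool.Agent.Lib_helper16.SD
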